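import Pool.Agent.Helper74.FFT.Edges

/-!
# MP_cd9ac2_co: counting
-/

namespace Pool.Agent.Helper74.FFT

open Finset
open scoped Classical
open Pool.Agent.Helper34.FF (Tri EvenSet)

section
variable {V : Type} [Fintype V] (G : SimpleGraph V) (L : ℕ)

/-- The number of neighbours with a property. -/
noncomputable def cnt (p : V → Prop) (y : V) : ℕ := ((nb G y).filter p).card

/-- The indicator of a property. -/
noncomputable def ind (p : Prop) : ℤ := if p then 1 else 0

variable {G} {L}

theorem ind_true {p : Prop} (h : p) : ind p = 1 := if_pos h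
theorem ind_false {p : Prop} (h : ¬ p) : ind p = 0 := if_neg h
theorem ind_nonneg (p : Prop) : 0 ≤ ind p := by unfold ind; split_ifs <;> norm_num
theorem ind_le (p : Prop) : ind p ≤ 1 := by unfold ind; split_ifs <;> norm_num

theorem sum_ind (p : V → Prop) : ∑ v, ind (p v) = ((univ.filter p).card : ℤ) := by
  unfold ind
  rw [sum_boole]

/-- Double counting. -/
theorem dc (p q : V → Prop) :
    ∑ y, ind (q y) * (cnt G p y : ℤ) = ∑ x, ind (p x) * (cnt G q x : ℤ) := by
  have h1 : ∀ (p q : V → Prop) (y : V), ind (q y) * (cnt G p y : ℤ) =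
      ∑ x, (if q y ∧ p x ∧ G.Adj x y then (1 : ℤ) else 0) := by
    intro p q y
    rw [sum_boole]
    by_cases hq : q y
    · rw [ind_true hq, one_mul]
      unfold cnt
      congr 2
      ext x
      simp only [mem_filter, mem_nb, mem_univ, true_and, hq]
      rw [G.adj_comm]
      tauto
    · rw [ind_false hq, zero_mul]
      simp [hq]
  rw [sum_congr rfl fun y _ => h1 p q y, sum_comm, sum_congr rfl fun y _ => h1 q p y]
  refine sum_congr rfl fun x _ => sum_congr rfl fun y _ => ?_
  congr 1
  rw [G.adj_comm]
  apply propext
  tauto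

theorem cnt_mono {p q : V → Prop} {y : V} (h : ∀ x ∈ nb G y, p x → q x) : cnt G p y ≤ cnt G q y :=
  card_le_card fun x hx => by
    rw [mem_filter] at hx ⊢
    exact ⟨hx.1, h x hx.1 hx.2⟩

theorem cnt_le (p : V → Prop) (y : V) : cnt G p y ≤ dg G y := card_le_card (filter_subset _ _)

theorem cnt_add (p : V → Prop) (y : V) : cnt G p y + cnt G (fun x => ¬ p x) y = dg G y := by
  unfold cnt dg
  rw [← card_filter_add_card_filter_not (s := nb G y) p]
  congr

theorem cnt_true (y : V) : cnt G (fun _ => True) y = dg G y := by
  unfold cnt dg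
  rw [filter_true]

theorem tw_eq (y : V) : tw G y = cnt G (fun x => dg G x = 2) y := by
  unfold tw cnt
  congr
theorem jS_eq (y : V) : jS G y = cnt G (S1 G) y := rfl

/-- Neighbours in `S1` and neighbours of degree two. -/
theorem jS_tw (y : V) : jS G y + tw G y ≤ dg G y := by
  have h1 := cnt_add (G := G) (fun x => dg G x = 2) y
  have h2 : jS G y ≤ cnt G (fun x => ¬ dg G x = 2) y := cnt_mono fun x _ hx h => by
    have := S1_dg hx
    omega
  rw [tw_eq]
  omega

/-- The type `A'`. -/
def tyA' (G : SimpleGraph V) (x : V) : Prop := dg G x = 4 ∧ tw G x = 3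
/-- The type `A`. -/
def tyA (G : SimpleGraph V) (x : V) : Prop := dg G x = 4 ∧ tw G x = 4

/-- Type `B` with a good neighbour of degree two. -/
def tyBs (G : SimpleGraph V) (L : ℕ) (x : V) : Prop :=
  tyB G x ∧ ∃ v ∈ nb G x, dg G v = 2 ∧ Gd G L v

theorem S1_iff (x : V) : S1 G x ↔ tyA G x ∨ tyA' G x ∨ tyB G x := by
  have := tw_le (G := G) x
  unfold S1 tyA tyA' tyB
  omega

theorem jS_split {y : V} (hy : dg G y ≠ 2) : jS G y ≤ cnt G (tyA' G) y + cnt G (tyB G) y := by
  have h1 : (nb G y).filter (S1 G) ⊆ (nb G y).filter (tyA' G) ∪ (nb G y).filter (tyB G) := by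
    intro x hx
    rw [mem_filter] at hx
    rw [mem_union, mem_filter, mem_filter]
    rcases (S1_iff x).1 hx.2 with h | h | h
    · exfalso
      -- all neighbours of `x` have degree two
      have h2 : (nb G x).filter (fun w => dg G w = 2) = nb G x := by
        apply eq_of_subset_of_card_le (filter_subset _ _)
        have h3 : (nb G x).card = 4 := h.1
        have h4 : ((nb G x).filter (fun w => dg G w = 2)).card = 4 := h.2
        omega
      have h3 : y ∈ (nb G x).filter (fun w => dg G w = 2) := by
        rw [h2]
        exact nb_symm G hx.1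
      exact hy (mem_filter.1 h3).2
    · exact Or.inl ⟨hx.1, h⟩
    · exact Or.inr ⟨hx.1, h⟩
  exact (card_le_card h1).trans (card_union_le _ _)

/-- The pointwise bound for the number of neighbours in `S1`. -/
theorem jS_bound (hL : 5 ≤ L) (y : V) : (jS G y : ℤ) ≤
    2 * ind (dg G y = 2 ∧ ¬ Gd G L y ∧ jS G y = 2) + ind (dg G y = 2 ∧ ¬ Gd G L y ∧ jS G y = 1) +
    2 * ind (Gd G L y) + ind (tyD G y) + ind (tyO G y) * jS G y + ind (tyA' G y) +
    ind (tyC G y) + 2 * ind (tyBs G L y) + ind (dg G y ≠ 2) * cnt G (tyA' G) y +
    cnt G (tyBs G L) y := by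
  have hj := jS_tw (G := G) y
  have n1 := ind_nonneg (dg G y = 2 ∧ ¬ Gd G L y ∧ jS G y = 2)
  have n2 := ind_nonneg (dg G y = 2 ∧ ¬ Gd G L y ∧ jS G y = 1)
  have n3 := ind_nonneg (Gd G L y)
  have n4 := ind_nonneg (tyD G y)
  have n5 : 0 ≤ ind (tyO G y) * jS G y := mul_nonneg (ind_nonneg _) (by positivity)
  have n6 := ind_nonneg (tyA' G y)
  have n7 := ind_nonneg (tyC G y)
  have n8 := ind_nonneg (tyBs G L y)
  have n9 : 0 ≤ ind (dg G y ≠ 2) * cnt G (tyA' G) y := mul_nonneg (ind_nonneg _) (by positivity)
  have n10 : (0 : ℤ) ≤ cnt G (tyBs G L) y := by positivity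
  rcases Nat.lt_or_ge (dg G y) 3 with h3 | h3
  · by_cases hG : Gd G L y
    · rw [ind_true hG]
      omega
    · have h2 : dg G y = 2 := by
        by_contra hne
        exact hG (f0 hL (by omega))
      rcases Nat.lt_or_ge (jS G y) 1 with h0 | h0
      · omega
      · rcases Nat.lt_or_ge (jS G y) 2 with h4 | h4
        · have h5 : jS G y = 1 := by omega
          rw [ind_true (p := dg G y = 2 ∧ ¬ Gd G L y ∧ jS G y = 1) ⟨h2, hG, h5⟩]
          omega
        · have h5 : jS G y = 2 := by omega
          rw [ind_true (p := dg G y = 2 ∧ ¬ Gd G L y ∧ jS G y = 2) ⟨h2, hG, h5⟩]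
          omega
  · have hne : dg G y ≠ 2 := by omega
    rcases types h3 with h | h | h | h
    · rcases (S1_iff y).1 h with h | h | h
      · -- type A
        have := h.1; have := h.2
        omega
      · -- type A'
        rw [ind_true h]
        have := h.1; have := h.2
        omega
      · -- type B
        have h1 := jS_split hne
        rw [ind_true hne, one_mul]
        rcases Nat.eq_zero_or_pos (cnt G (tyB G) y) with h0 | h0
        · omega
        · obtain ⟨b', hb'⟩ := card_pos.1 h0
          rw [mem_filter] at hb'
          obtain ⟨v, hv, hv2⟩ := exists_two (G := G) (b := y) (by rw [h.2])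
          have hvG : Gd G L v := by
            by_contra hvG
            exact f3 hL hv2 hvG (nb_symm G hv) h hb'.1 hb'.2
          rw [ind_true (p := tyBs G L y) ⟨h, v, hv, hv2, hvG⟩]
          have h2 : cnt G (tyB G) y ≤ cnt G (fun x => ¬ dg G x = 2) y := cnt_mono fun x _ hx h => by
            have := hx.1
            omega
          have h4 := cnt_add (G := G) (fun x => dg G x = 2) y
          have h5 := h.1
          have h6 : cnt G (fun x => dg G x = 2) y = 1 := by rw [← tw_eq]; exact h.2
          omega
    · -- type C
      have h1 := jS_split hne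
      rw [ind_true hne, one_mul, ind_true h]
      rcases Nat.lt_or_ge (cnt G (tyB G) y) 2 with h0 | h0
      · omega
      · have h2 : cnt G (tyB G) y ≤ cnt G (tyBs G L) y := by
          apply cnt_mono
          intro b hb hbB
          obtain ⟨b', hb', hne'⟩ := exists_mem_ne (show 1 < ((nb G y).filter (tyB G)).card from h0) b
          rw [mem_filter] at hb'
          obtain ⟨v, hv, hv2⟩ := exists_two (G := G) (b := b) (by rw [hbB.2])
          refine ⟨hbB, v, hv, hv2, ?_⟩
          by_contra hvG
          exact f4 hL hv2 hvG (nb_symm G hv) hbB (nb_symm G hb) h hb'.1 hne' hb'.2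
        omega
    · -- type D
      rw [ind_true h]
      have := h.1; have := h.2
      omega
    · -- outer
      rw [ind_true h, one_mul]
      omega

/-- The pointwise bound for the charge. -/
theorem charge_bound (hL : 5 ≤ L) (v : V) :
    -36 * ind (Gd G L v) - 4 * ind (tyA G v) + ind (tyA' G v) - 2 * ind (tyB G v) +
      3 * ind (tyC G v) - 12 * ind (tyD G v) + 4 * ind (tyO G v) +
      2 * (ind (tyO G v) * jS G v) - 2 * ind (tyO G v ∧ 1 ≤ jS G v) ≤
    (13 * dg G v - 36) - 5 * (ind (3 ≤ dg G v) * cnt G (fun x => dg G x = 2) v) +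
      5 * (ind (dg G v = 2) * cnt G (fun x => 3 ≤ dg G x) v) := by
  have hj := jS_tw (G := G) v
  have hG1 := ind_nonneg (Gd G L v)
  have hc0 : (0 : ℤ) ≤ ind (dg G v = 2) * cnt G (fun x => 3 ≤ dg G x) v :=
    mul_nonneg (ind_nonneg _) (by positivity)
  have htw : cnt G (fun x => dg G x = 2) v = tw G v := (tw_eq v).symm
  rw [htw]
  rcases Nat.lt_or_ge (dg G v) 3 with h3 | h3
  · rw [ind_false (p := 3 ≤ dg G v) (by omega)]
    rw [ind_false (p := tyA G v) (fun h => by have := h.1; omega),
      ind_false (p := tyA' G v) (fun h => by have := h.1; omega),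
      ind_false (p := tyB G v) (fun h => by have := h.1; omega),
      ind_false (p := tyC G v) (fun h => by have := h.1; omega),
      ind_false (p := tyD G v) (fun h => by have := h.1; omega),
      ind_false (p := tyO G v) (fun h => by have := h.1; omega),
      ind_false (p := tyO G v ∧ 1 ≤ jS G v) (fun h => by have := h.1.1; omega)]
    by_cases hG : Gd G L v
    · rw [ind_true hG]
      have : (0 : ℤ) ≤ dg G v := by positivity
      linarith
    · have h2 : dg G v = 2 := by
        by_contra hne
        exact hG (f0 hL (by omega))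
      have h4 : cnt G (fun x => 3 ≤ dg G x) v = 2 := by
        rw [← h2, ← cnt_true v]
        apply le_antisymm
        · exact cnt_mono fun _ _ _ => trivial
        · exact cnt_mono fun x hx _ => f1 hL h2 hG hx
      rw [ind_false hG, ind_true h2, h4, h2]
      norm_num
  · rw [ind_true h3, ind_false (p := dg G v = 2) (by omega)]
    have h3' : (3 : ℤ) ≤ dg G v := by exact_mod_cast h3
    have hj' : (jS G v : ℤ) + tw G v ≤ dg G v := by exact_mod_cast hj
    have hj0 : (0 : ℤ) ≤ jS G v := by positivity
    rcases types h3 with h | h | h | h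
    · have hO : ¬ tyO G v := fun h' => h'.2 h
      rcases (S1_iff v).1 h with h | h | h
      · rw [ind_true h, ind_false (p := tyA' G v) (fun h' => by have := h'.2; have := h.2; omega),
          ind_false (p := tyB G v) (fun h' => by have := h'.2; have := h.2; omega),
          ind_false (p := tyC G v) (fun h' => by have := h'.2; have := h.2; omega),
          ind_false (p := tyD G v) (fun h' => by have := h'.1; have := h.1; omega),
          ind_false hO, ind_false (p := tyO G v ∧ 1 ≤ jS G v) (fun h' => hO h'.1), h.1, h.2]
        push_cast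
        linarith
      · rw [ind_true h, ind_false (p := tyA G v) (fun h' => by have := h'.2; have := h.2; omega),
          ind_false (p := tyB G v) (fun h' => by have := h'.2; have := h.2; omega),
          ind_false (p := tyC G v) (fun h' => by have := h'.2; have := h.2; omega),
          ind_false (p := tyD G v) (fun h' => by have := h'.1; have := h.1; omega),
          ind_false hO, ind_false (p := tyO G v ∧ 1 ≤ jS G v) (fun h' => hO h'.1), h.1, h.2]
        push_cast
        linarith
      · rw [ind_true h, ind_false (p := tyA G v) (fun h' => by have := h'.2; have := h.2; omega),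
          ind_false (p := tyA' G v) (fun h' => by have := h'.2; have := h.2; omega),
          ind_false (p := tyC G v) (fun h' => by have := h'.2; have := h.2; omega),
          ind_false (p := tyD G v) (fun h' => by have := h'.2; have := h.2; omega),
          ind_false hO, ind_false (p := tyO G v ∧ 1 ≤ jS G v) (fun h' => hO h'.1), h.1, h.2]
        push_cast
        linarith
    · have hO : ¬ tyO G v := fun h' => by have := h'.1; have := h.1; omega
      rw [ind_true h, ind_false (p := tyA G v) (fun h' => by have := h'.2; have := h.2; omega),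
        ind_false (p := tyA' G v) (fun h' => by have := h'.2; have := h.2; omega),
        ind_false (p := tyB G v) (fun h' => by have := h'.2; have := h.2; omega),
        ind_false (p := tyD G v) (fun h' => by have := h'.2; have := h.2; omega),
        ind_false hO, ind_false (p := tyO G v ∧ 1 ≤ jS G v) (fun h' => hO h'.1), h.1, h.2]
      push_cast
      linarith
    · have hO : ¬ tyO G v := fun h' => by have := h'.1; have := h.1; omega
      rw [ind_true h, ind_false (p := tyA G v) (fun h' => by have := h'.1; have := h.1; omega),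
        ind_false (p := tyA' G v) (fun h' => by have := h'.1; have := h.1; omega),
        ind_false (p := tyB G v) (fun h' => by have := h'.2; have := h.2; omega),
        ind_false (p := tyC G v) (fun h' => by have := h'.2; have := h.2; omega),
        ind_false hO, ind_false (p := tyO G v ∧ 1 ≤ jS G v) (fun h' => hO h'.1)]
      have h4 : (dg G v : ℤ) = 3 := by exact_mod_cast h.1
      have h5 := tw_le (G := G) v
      have h6 : (tw G v : ℤ) ≤ 3 := by rw [← h4]; exact_mod_cast h5
      rw [h4]
      linarith
    · have hS : ¬ S1 G v := h.2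
      have hS' := fun h' => hS ((S1_iff v).2 h')
      have h4 := h.1
      rw [ind_true h, ind_false (p := tyA G v) (fun h' => hS' (Or.inl h')),
        ind_false (p := tyA' G v) (fun h' => hS' (Or.inr (Or.inl h'))),
        ind_false (p := tyB G v) (fun h' => hS' (Or.inr (Or.inr h'))),
        ind_false (p := tyC G v) (fun h' => by have := h'.1; omega),
        ind_false (p := tyD G v) (fun h' => by have := h'.1; omega)]
      have h4' : (4 : ℤ) ≤ dg G v := by exact_mod_cast h4
      rcases Nat.lt_or_ge (dg G v) 5 with h5 | h5
      · have h6 : dg G v = 4 := by omega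
        have h7 : tw G v ≤ 2 := by
          by_contra hcon
          exact hS (Or.inl ⟨h6, by omega⟩)
        have h6' : (dg G v : ℤ) = 4 := by exact_mod_cast h6
        have h7' : (tw G v : ℤ) ≤ 2 := by exact_mod_cast h7
        rcases Nat.eq_zero_or_pos (jS G v) with h8 | h8
        · rw [ind_false (p := tyO G v ∧ 1 ≤ jS G v) (fun h' => by have := h'.2; omega), h8, h6']
          push_cast
          linarith
        · rw [ind_true (p := tyO G v ∧ 1 ≤ jS G v) ⟨h, h8⟩, h6']
          rw [h6'] at hj'
          linarith
      · have h5' : (5 : ℤ) ≤ dg G v := by exact_mod_cast h5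
        have h8 := ind_nonneg (tyO G v ∧ 1 ≤ jS G v)
        linarith

end

end Pool.Agent.Helper74.FFT
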