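import Pool.Agent.Helper22.FF.StmtAlg

/-!
# MP_cd9ac2_co: Euler's inequality for sets of edges without light even subsets
-/

namespace Pool.Agent.Helper74.FFT

open Finset
open scoped symmDiff Classical
open Pool.Agent.Helper34.FF (Tri EvenSet)

theorem card_filter_symmDiff {α : Type} [DecidableEq α] (A B : Finset α) (p : α → Prop) [DecidablePred p] :
    (((A ∆ B).filter p).card + 2 * ((A ∩ B).filter p).card) =
      (A.filter p).card + (B.filter p).card := by
  have h1 : (A ∆ B).filter p = (A.filter p) ∆ (B.filter p) := by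
    ext x
    simp only [mem_filter, mem_symmDiff]
    tauto
  have h2 : (A ∩ B).filter p = (A.filter p) ∩ (B.filter p) := by
    ext x
    simp only [mem_filter, mem_inter]
    tauto
  rw [h1, h2]
  generalize A.filter p = A'
  generalize B.filter p = B'
  have h1 : (A' ∆ B').card = (A' \ B').card + (B' \ A').card := by
    rw [symmDiff_def, sup_eq_union, card_union_of_disjoint]
    rw [Finset.disjoint_left]
    intro x hx hx'
    rw [mem_sdiff] at hx hx'
    exact hx.2 hx'.1
  have h2 : (A' \ B').card + (A' ∩ B').card = A'.card := card_sdiff_add_card_inter A' B'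
  have h3 : (B' \ A').card + (B' ∩ A').card = B'.card := card_sdiff_add_card_inter B' A'
  rw [inter_comm B' A'] at h3
  omega

/-- Pigeonhole: there are many even subsets. -/
theorem many_even {V : Type} (A : Finset (Sym2 V)) (VA : Finset V)
    (hVA : ∀ e ∈ A, ∀ v ∈ e, v ∈ VA) :
    2 ^ A.card ≤ (A.powerset.filter EvenSet).card * 2 ^ VA.card := by
  let od : Finset (Sym2 V) → Finset V := fun Z =>
    VA.filter fun v => Odd (Z.filter fun e => v ∈ e).card
  have h1 := card_le_mul_card_image (s := A.powerset) (f := od)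
    (A.powerset.filter EvenSet).card ?_
  · rw [card_powerset] at h1
    refine h1.trans (Nat.mul_le_mul_left _ ?_)
    rw [← card_powerset]
    apply card_le_card
    intro Y hY
    obtain ⟨Z, _, rfl⟩ := mem_image.1 hY
    exact mem_powerset.2 (filter_subset _ _)
  · intro Y hY
    obtain ⟨Z₀, hZ₀, rfl⟩ := mem_image.1 hY
    apply card_le_card_of_injOn (fun Z => Z ∆ Z₀)
    · intro Z hZ
      simp only [coe_filter, Set.mem_ofPred_eq, mem_powerset] at hZ ⊢
      rw [mem_powerset] at hZ₀
      refine ⟨?_, ?_⟩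
      · intro e he
        rcases mem_symmDiff.1 he with h | h
        · exact hZ.1 h.1
        · exact hZ₀ h.1
      · intro v
        by_cases hv : v ∈ VA
        · have h2 := card_filter_symmDiff Z Z₀ (fun e => v ∈ e)
          have h3 : Odd (Z.filter fun e => v ∈ e).card ↔ Odd (Z₀.filter fun e => v ∈ e).card := by
            have h4 : v ∈ od Z ↔ v ∈ od Z₀ := by rw [hZ.2]
            simpa [od, hv] using h4
          have h5 : Even ((Z.filter fun e => v ∈ e).card + (Z₀.filter fun e => v ∈ e).card) := by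
            rw [Nat.even_add]
            rw [← Nat.not_even_iff_odd, ← Nat.not_even_iff_odd] at h3
            tauto
          rw [← h2, Nat.even_add] at h5
          exact h5.2 (even_two_mul _)
        · have h2 : ((Z ∆ Z₀).filter fun e => v ∈ e) = ∅ := by
            rw [filter_eq_empty_iff]
            intro e he hve
            rcases mem_symmDiff.1 he with h | h
            · exact hv (hVA e (hZ.1 h.1) v hve)
            · exact hv (hVA e (hZ₀ h.1) v hve)
          rw [h2]
          simp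
    · intro Z _ Z' _ h
      exact symmDiff_left_injective Z₀ h

section
variable {V F : Type} [Fintype V] [Fintype F] (T : Tri V F)

theorem mem_bdry_of {e : Sym2 V} {S : Finset F} (he : e ∈ T.G.edgeSet) {f₁ f₂ : F}
    (h1 : T.on e f₁) (h2 : T.on e f₂) (h3 : f₁ ∈ S) (h4 : f₂ ∉ S) : e ∈ T.bdry S := by
  rw [Helper22.FF.mem_bdry]
  refine ⟨he, ?_⟩
  have h5 := Helper22.FF.card_on T e he
  have h6 : 1 ≤ (S.filter fun f => T.on e f).card := card_pos.2 ⟨f₁, mem_filter.2 ⟨h3, h1⟩⟩
  have h7 : (S.filter fun f => T.on e f).card < (univ.filter fun f => T.on e f).card := by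
    apply card_lt_card
    rw [ssubset_iff_of_subset]
    · exact ⟨f₂, mem_filter.2 ⟨mem_univ _, h2⟩, fun h => h4 (mem_filter.1 h).1⟩
    · intro f hf
      exact mem_filter.2 ⟨mem_univ _, (mem_filter.1 hf).2⟩
  omega

theorem faces_of_bdry {e : Sym2 V} {S : Finset F} (he : e ∈ T.bdry S) :
    e ∈ T.G.edgeSet ∧ ∃ f₁ ∈ S, ∃ f₂, f₂ ∉ S ∧ T.on e f₁ ∧ T.on e f₂ := by
  rw [Helper22.FF.mem_bdry] at he
  refine ⟨he.1, ?_⟩
  have h5 := Helper22.FF.card_on T e he.1
  obtain ⟨f₁, hf₁⟩ := card_pos.1 (by omega : 0 < (S.filter fun f => T.on e f).card)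
  rw [mem_filter] at hf₁
  have h6 : ¬ (univ.filter fun f => T.on e f) ⊆ (S.filter fun f => T.on e f) := by
    intro h
    have := card_le_card h
    omega
  rw [not_subset] at h6
  obtain ⟨f₂, h7, h8⟩ := h6
  rw [mem_filter] at h7
  exact ⟨f₁, hf₁.1, f₂, fun h => h8 (mem_filter.2 ⟨h, h7.2⟩), hf₁.2, h7.2⟩

/-- The sets of faces with boundary in `A`. -/
noncomputable def Cl (A : Finset (Sym2 V)) : Finset (Finset F) :=
  univ.filter fun S => T.bdry S ⊆ A

/-- The atom of `f`. -/
noncomputable def atm (A : Finset (Sym2 V)) (f : F) : Finset F :=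
  univ.filter fun g => ∀ S ∈ Cl T A, f ∈ S → g ∈ S

variable (A : Finset (Sym2 V))

theorem mem_Cl {S : Finset F} : S ∈ Cl T A ↔ T.bdry S ⊆ A := by simp [Cl]

theorem mem_atm {f g : F} : g ∈ atm T A f ↔ ∀ S ∈ Cl T A, f ∈ S → g ∈ S := by simp [atm]

theorem compl_mem_Cl {S : Finset F} (h : S ∈ Cl T A) : Sᶜ ∈ Cl T A := by
  rw [mem_Cl, Helper22.FF.bdry_compl]
  exact (mem_Cl T A).1 h

theorem self_mem_atm (f : F) : f ∈ atm T A f := (mem_atm T A).2 fun _ _ h => h

theorem atm_symm {f g : F} (h : g ∈ atm T A f) : f ∈ atm T A g := by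
  rw [mem_atm] at h ⊢
  intro S hS hg
  by_contra hf
  exact mem_compl.1 (h Sᶜ (compl_mem_Cl T A hS) (mem_compl.2 hf)) hg

theorem atm_sub {f g : F} (h : g ∈ atm T A f) : atm T A g ⊆ atm T A f := by
  intro x hx
  rw [mem_atm] at h hx ⊢
  exact fun S hS hf => hx S hS (h S hS hf)

theorem atm_eq {f g : F} (h : g ∈ atm T A f) : atm T A g = atm T A f :=
  Subset.antisymm (atm_sub T A h) (atm_sub T A (atm_symm T A h))

theorem bdry_atm (f : F) : T.bdry (atm T A f) ⊆ A := by
  intro e he
  obtain ⟨hE, f₁, h1, f₂, h2, h3, h4⟩ := faces_of_bdry T he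
  rw [mem_atm] at h1 h2
  push Not at h2
  obtain ⟨S, hS, hf, hf2⟩ := h2
  exact (mem_Cl T A).1 hS (mem_bdry_of T hE h3 h4 (h1 S hS hf) hf2)

theorem card_Cl_le : (Cl T A).card ≤ 2 ^ (univ.image (atm T A)).card := by
  rw [← card_powerset]
  apply card_le_card_of_injOn (fun S => S.image (atm T A))
  · intro S _
    simp only [coe_powerset, Set.mem_preimage, Set.mem_powerset_iff, coe_subset]
    exact image_subset_image (subset_univ _)
  · have key : ∀ S ∈ Cl T A, ∀ S' : Finset F, S.image (atm T A) = S'.image (atm T A) → S' ⊆ S := by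
      intro S hS S' h g hg
      have h1 : atm T A g ∈ S.image (atm T A) := by rw [h]; exact mem_image_of_mem _ hg
      obtain ⟨f, hf, hfg⟩ := mem_image.1 h1
      have h2 : g ∈ atm T A f := by rw [hfg]; exact self_mem_atm T A g
      exact (mem_atm T A).1 h2 S hS hf
    intro S hS S' hS' h
    exact Subset.antisymm (key S' hS' S h.symm) (key S hS S' h)

theorem two_even_le [Nonempty F] (hT : T.Sphere) (hA : ∀ e ∈ A, e ∈ T.G.edgeSet) :
    (A.powerset.filter EvenSet).card * 2 ≤ (Cl T A).card := by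
  have h1 : (Cl T A).card = ∑ Z ∈ A.powerset.filter EvenSet,
      ((Cl T A).filter fun S => T.bdry S = Z).card := by
    apply card_eq_sum_card_fiberwise
    intro S hS
    simp only [coe_filter, Set.mem_ofPred_eq, mem_powerset]
    exact ⟨(mem_Cl T A).1 hS, Helper22.FF.even_bdry T S⟩
  rw [h1, ← smul_eq_mul, ← sum_const]
  apply sum_le_sum
  intro Z hZ
  rw [mem_filter, mem_powerset] at hZ
  obtain ⟨S, hS⟩ := hT.span Z (fun e he => hA e (hZ.1 he)) hZ.2
  have h2 : S ∈ (Cl T A).filter fun S => T.bdry S = Z := by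
    rw [mem_filter, mem_Cl, hS]
    exact ⟨hZ.1, rfl⟩
  have h3 : Sᶜ ∈ (Cl T A).filter fun S => T.bdry S = Z := by
    rw [mem_filter, mem_Cl, Helper22.FF.bdry_compl, hS]
    exact ⟨hZ.1, rfl⟩
  have h4 : S ≠ Sᶜ := by
    intro h
    obtain ⟨f⟩ := (inferInstance : Nonempty F)
    by_cases hf : f ∈ S
    · have : f ∈ Sᶜ := by rw [← h]; exact hf
      exact mem_compl.1 this hf
    · apply hf
      rw [h]
      exact mem_compl.2 hf
  rw [← card_pair h4]
  apply card_le_card
  intro X hX
  rw [mem_insert, mem_singleton] at hX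
  rcases hX with rfl | rfl
  · exact h2
  · exact h3

/-- Lemma P. -/
theorem euler_ineq [Nonempty F] (hT : T.Sphere) (hA : ∀ e ∈ A, e ∈ T.G.edgeSet) (VA : Finset V)
    (hVA : ∀ e ∈ A, ∀ v ∈ e, v ∈ VA) (wt : Sym2 V → ℕ) (k : ℕ)
    (hk : ∀ C ⊆ A, C.Nonempty → EvenSet C → k ≤ ∑ e ∈ C, wt e) :
    k * A.card ≤ k * VA.card + 2 * ∑ e ∈ A, wt e := by
  set N := (univ.image (atm T A)).card with hN
  have h1 : A.card + 1 ≤ N + VA.card := by
    have h2 := many_even A VA hVA
    have h3 := two_even_le T A hT hA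
    have h4 := card_Cl_le T A
    have h5 : 2 ^ (A.card + 1) ≤ 2 ^ (N + VA.card) := by
      calc 2 ^ (A.card + 1) = 2 ^ A.card * 2 := pow_succ _ _
        _ ≤ ((A.powerset.filter EvenSet).card * 2 ^ VA.card) * 2 := Nat.mul_le_mul_right 2 h2
        _ = ((A.powerset.filter EvenSet).card * 2) * 2 ^ VA.card := by ring
        _ ≤ 2 ^ N * 2 ^ VA.card := Nat.mul_le_mul_right _ (h3.trans h4)
        _ = 2 ^ (N + VA.card) := (pow_add _ _ _).symm
    exact (Nat.pow_le_pow_iff_right (by norm_num)).1 h5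
  rcases Nat.lt_or_ge N 2 with hN2 | hN2
  · have h2 : A.card ≤ VA.card := by omega
    exact (Nat.mul_le_mul_left k h2).trans (Nat.le_add_right _ _)
  have h2 : k * N ≤ 2 * ∑ e ∈ A, wt e := by
    have h3 : ∀ a ∈ univ.image (atm T A), k ≤ ∑ e ∈ T.bdry a, wt e := by
      intro a ha
      obtain ⟨f, _, rfl⟩ := mem_image.1 ha
      refine hk _ (bdry_atm T A f) ?_ (Helper22.FF.even_bdry T _)
      rw [nonempty_iff_ne_empty]
      intro h0
      rcases hT.dual _ h0 with h | h
      · have := self_mem_atm T A f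
        rw [h] at this
        exact absurd this (notMem_empty _)
      · have h5 : univ.image (atm T A) ⊆ {atm T A f} := by
          intro b hb
          obtain ⟨g, _, rfl⟩ := mem_image.1 hb
          rw [mem_singleton]
          apply atm_eq
          rw [h]
          exact mem_univ _
        have h6 := card_le_card h5
        rw [card_singleton] at h6
        omega
    have h4 : N * k ≤ ∑ a ∈ univ.image (atm T A), ∑ e ∈ T.bdry a, wt e := by
      rw [hN, ← smul_eq_mul, ← sum_const]
      exact sum_le_sum h3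
    have h5 : ∑ a ∈ univ.image (atm T A), ∑ e ∈ T.bdry a, wt e =
        ∑ e ∈ A, ∑ a ∈ (univ.image (atm T A)).filter (fun a => e ∈ T.bdry a), wt e := by
      apply sum_comm'
      intro a e
      rw [mem_filter]
      constructor
      · rintro ⟨ha, he⟩
        obtain ⟨f, _, rfl⟩ := mem_image.1 ha
        exact ⟨⟨ha, he⟩, bdry_atm T A f he⟩
      · rintro ⟨⟨ha, he⟩, _⟩
        exact ⟨ha, he⟩
    have h6 : ∀ e ∈ A, ∑ a ∈ (univ.image (atm T A)).filter (fun a => e ∈ T.bdry a), wt e ≤
        2 * wt e := by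
      intro e he
      rw [sum_const, smul_eq_mul]
      apply Nat.mul_le_mul_right
      rw [← Helper22.FF.card_on T e (hA e he)]
      refine (card_le_card (t := (univ.filter fun f => T.on e f).image (atm T A)) ?_).trans
        card_image_le
      intro a ha
      rw [mem_filter] at ha
      obtain ⟨f, _, rfl⟩ := mem_image.1 ha.1
      obtain ⟨_, f₁, h7, _, _, h8, _⟩ := faces_of_bdry T ha.2
      rw [mem_image]
      exact ⟨f₁, mem_filter.2 ⟨mem_univ _, h8⟩, atm_eq T A h7⟩
    rw [Nat.mul_comm, mul_sum]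
    exact h4.trans (h5.le.trans (sum_le_sum h6))
  calc k * A.card ≤ k * (N + VA.card) := Nat.mul_le_mul_left k (by omega)
    _ = k * N + k * VA.card := by ring
    _ ≤ 2 * ∑ e ∈ A, wt e + k * VA.card := Nat.add_le_add_right h2 _
    _ = _ := by ring

end

end Pool.Agent.Helper74.FFT
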