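import Pool.Agent.Helper74.FFT.Types
import Pool.Agent.Helper74.FFT.Euler

/-!
# MP_cd9ac2_co: the set of edges to which Euler's inequality is applied
-/

namespace Pool.Agent.Helper74.FFT

open Finset
open scoped Classical
open Pool.Agent.Helper34.FF (Tri EvenSet)

section
variable {V : Type} [Fintype V] (G : SimpleGraph V) (L : ℕ)

/-- The bad vertices of degree two with a neighbour in `S1`. -/
noncomputable def Wset : Finset V :=
  univ.filter fun y => dg G y = 2 ∧ ¬ Gd G L y ∧ 1 ≤ jS G y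

/-- The outer vertices with a neighbour in `S1`. -/
noncomputable def OD : Finset V := univ.filter fun z => tyO G z ∧ 1 ≤ jS G z

/-- A neighbour in `S1`. -/
noncomputable def ch (z : V) : V := if h : ∃ x ∈ nb G z, S1 G x then h.choose else z

theorem ch_spec {z : V} (h : 1 ≤ jS G z) : ch G z ∈ nb G z ∧ S1 G (ch G z) := by
  have h1 : ∃ x ∈ nb G z, S1 G x := by
    obtain ⟨x, hx⟩ := card_pos.1 h
    rw [mem_filter] at hx
    exact ⟨x, hx.1, hx.2⟩
  unfold ch
  rw [dif_pos h1]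
  exact h1.choose_spec

/-- The edges at the vertices of `W`. -/
noncomputable def EW : Finset (Sym2 V) :=
  (Wset G L).biUnion fun y => (nb G y).image fun x => s(y, x)

/-- The direct edges. -/
noncomputable def ED : Finset (Sym2 V) := (OD G).image fun z => s(z, ch G z)

/-- All the edges. -/
noncomputable def EA : Finset (Sym2 V) := EW G L ∪ ED G

variable {G} {L}

theorem mem_Wset {y : V} : y ∈ Wset G L ↔ dg G y = 2 ∧ ¬ Gd G L y ∧ 1 ≤ jS G y := by
  simp [Wset]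

theorem mem_OD {z : V} : z ∈ OD G ↔ tyO G z ∧ 1 ≤ jS G z := by simp [OD]

theorem mem_EW {e : Sym2 V} : e ∈ EW G L ↔ ∃ y ∈ Wset G L, ∃ x ∈ nb G y, s(y, x) = e := by
  simp [EW]

theorem mem_ED {e : Sym2 V} : e ∈ ED G ↔ ∃ z ∈ OD G, s(z, ch G z) = e := by simp [ED]

/-- An edge of the set, seen from one of its ends. -/
theorem EA_cases (hL : 5 ≤ L) {u v : V} (h : s(u, v) ∈ EA G L) : G.Adj u v ∧
    ((u ∈ Wset G L ∧ (S1 G v ∨ tyO G v)) ∨ (v ∈ Wset G L ∧ (S1 G u ∨ tyO G u)) ∨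
      (tyO G u ∧ S1 G v ∧ v = ch G u) ∨ (tyO G v ∧ S1 G u ∧ u = ch G v)) := by
  rcases mem_union.1 h with h | h
  · obtain ⟨y, hy, x, hx, he⟩ := mem_EW.1 h
    have h1 := nbr_type hL (mem_Wset.1 hy).1 (mem_Wset.1 hy).2.1 hx
    have h2 := (mem_nb G).1 hx
    rcases Sym2.eq_iff.1 he with ⟨rfl, rfl⟩ | ⟨rfl, rfl⟩
    · exact ⟨h2, Or.inl ⟨hy, h1⟩⟩
    · exact ⟨h2.symm, Or.inr (Or.inl ⟨hy, h1⟩)⟩
  · obtain ⟨z, hz, he⟩ := mem_ED.1 h
    have h1 := ch_spec G (mem_OD.1 hz).2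
    have h2 := (mem_nb G).1 h1.1
    rcases Sym2.eq_iff.1 he with ⟨rfl, rfl⟩ | ⟨rfl, rfl⟩
    · exact ⟨h2, Or.inr (Or.inr (Or.inl ⟨(mem_OD.1 hz).1, h1.2, rfl⟩))⟩
    · exact ⟨h2.symm, Or.inr (Or.inr (Or.inr ⟨(mem_OD.1 hz).1, h1.2, rfl⟩))⟩

theorem W_dg {y : V} (h : y ∈ Wset G L) : dg G y = 2 := (mem_Wset.1 h).1

theorem O_dg {y : V} (h : tyO G y) : 4 ≤ dg G y := h.1

/-- Sums over the set of edges. -/
theorem sum_EA (hL : 5 ≤ L) (f : Sym2 V → ℕ) :
    ∑ e ∈ EA G L, f e = (∑ y ∈ Wset G L, ∑ x ∈ nb G y, f s(y, x)) +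
      ∑ z ∈ OD G, f s(z, ch G z) := by
  have hbig : ∀ y ∈ Wset G L, ∀ x ∈ nb G y, 3 ≤ dg G x := by
    intro y hy x hx
    exact f1 hL (mem_Wset.1 hy).1 (mem_Wset.1 hy).2.1 hx
  unfold EA
  rw [sum_union]
  · congr 1
    · unfold EW
      rw [sum_biUnion]
      · apply sum_congr rfl
        intro y _
        rw [sum_image]
        intro x _ x' _ h
        exact Sym2.congr_right.1 h
      · intro y hy y' hy' hne
        rw [Function.onFun, disjoint_left]
        intro e he he'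
        obtain ⟨x, hx, rfl⟩ := mem_image.1 he
        obtain ⟨x', hx', h⟩ := mem_image.1 he'
        rcases Sym2.eq_iff.1 h with ⟨h1, _⟩ | ⟨_, h2⟩
        · exact hne h1.symm
        · have h3 := hbig y' hy' x' hx'
          rw [h2, W_dg hy] at h3
          omega
    · unfold ED
      rw [sum_image]
      intro z hz z' hz' h
      rcases Sym2.eq_iff.1 h with ⟨h1, _⟩ | ⟨h1, _⟩
      · exact h1
      · exfalso
        have h2 := (ch_spec G (mem_OD.1 hz').2).2
        rw [← h1] at h2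
        exact (mem_OD.1 hz).1.2 h2
  · rw [disjoint_left]
    intro e he he'
    obtain ⟨y, hy, x, hx, rfl⟩ := mem_EW.1 he
    obtain ⟨z, hz, h⟩ := mem_ED.1 he'
    have h3 := (mem_OD.1 hz).1.1
    have h4 := S1_dg (ch_spec G (mem_OD.1 hz).2).2
    have h5 := W_dg hy
    rcases Sym2.eq_iff.1 h with ⟨h1, _⟩ | ⟨_, h2⟩
    · rw [h1] at h3
      omega
    · rw [h2] at h4
      omega

/-- The weights. -/
noncomputable def wt (G : SimpleGraph V) (K : ℕ) (e : Sym2 V) : ℕ :=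
  if ∃ z ∈ e, tyO G z then K else 2

theorem wt_O {K : ℕ} {x y : V} (h : tyO G y) : wt G K s(x, y) = K :=
  if_pos ⟨y, Sym2.mem_mk_right _ _, h⟩

theorem wt_O' {K : ℕ} {x y : V} (h : tyO G x) : wt G K s(x, y) = K :=
  if_pos ⟨x, Sym2.mem_mk_left _ _, h⟩

theorem wt_S {K : ℕ} {x y : V} (hx : ¬ tyO G x) (hy : ¬ tyO G y) : wt G K s(x, y) = 2 := by
  apply if_neg
  rintro ⟨z, hz, h⟩
  rcases Sym2.mem_iff.1 hz with rfl | rfl
  · exact hx h
  · exact hy h

theorem two_le_wt {K : ℕ} (hK : 2 ≤ K) (e : Sym2 V) : 2 ≤ wt G K e := by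
  unfold wt
  split_ifs
  · exact hK
  · exact le_rfl

/-- A light even subset gives a good vertex. -/
theorem light (hL : 5 ≤ L) {K : ℕ} (hK : 2 ≤ K) (hKL : 3 * K + 4 ≤ L) (C : Finset (Sym2 V))
    (hCA : C ⊆ EA G L) (hC : C.Nonempty) (hE : EvenSet C) : 4 * K ≤ ∑ e ∈ C, wt G K e := by
  by_contra hcon
  push Not at hcon
  have hcase : ∀ u v, s(u, v) ∈ C → _ := fun u v h => EA_cases hL (hCA h)
  -- the relation
  have hsymm : ∀ x y, s(x, y) ∈ C → s(y, x) ∈ C := by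
    intro x y h
    rw [Sym2.eq_swap]
    exact h
  have hadj : ∀ x y, s(x, y) ∈ C → G.Adj x y := fun x y h => (hcase x y h).1
  have hdeg2 : ∀ x y, s(x, y) ∈ C → 2 ≤ (C.filter fun e => x ∈ e).card := by
    intro x y h
    have h1 : 1 ≤ (C.filter fun e => x ∈ e).card :=
      card_pos.2 ⟨s(x, y), mem_filter.2 ⟨h, Sym2.mem_mk_left _ _⟩⟩
    have h2 := hE x
    obtain ⟨k, hk⟩ := h2
    omega
  have hdeg : ∀ x y, s(x, y) ∈ C → ∃ z, z ≠ y ∧ s(x, z) ∈ C := by
    intro x y h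
    obtain ⟨e, he, hne⟩ := exists_mem_ne (hdeg2 x y h) s(x, y)
    rw [mem_filter] at he
    obtain ⟨z, rfl⟩ := Sym2.mem_iff_exists.1 he.2
    exact ⟨z, fun h => hne (by rw [h]), he.1⟩
  have h22 : ∀ x y, s(x, y) ∈ C → dg G x = 2 → dg G y ≠ 2 := by
    intro x y h h1 h2
    rcases (hcase x y h).2 with ⟨_, h3 | h3⟩ | ⟨_, h3 | h3⟩ | ⟨h3, _⟩ | ⟨h3, _⟩
    · have := S1_dg h3; omega
    · have := O_dg h3; omega
    · have := S1_dg h3; omega
    · have := O_dg h3; omega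
    · have := O_dg h3; omega
    · have := O_dg h3; omega
  have h11 : ∀ x y, s(x, y) ∈ C → S1 G x → ¬ S1 G y := by
    intro x y h h1 h2
    rcases (hcase x y h).2 with ⟨h3, _⟩ | ⟨h3, _⟩ | ⟨h3, _⟩ | ⟨h3, _⟩
    · have := S1_dg h1; have := W_dg h3; omega
    · have := S1_dg h2; have := W_dg h3; omega
    · exact h3.2 h1
    · exact h3.2 h2
  have hOO : ∀ x y, s(x, y) ∈ C → tyO G x → ¬ tyO G y := by
    intro x y h h1 h2
    rcases (hcase x y h).2 with ⟨h3, _⟩ | ⟨h3, _⟩ | ⟨_, h3, _⟩ | ⟨_, h3, _⟩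
    · have := O_dg h1; have := W_dg h3; omega
    · have := O_dg h2; have := W_dg h3; omega
    · exact h2.2 h3
    · exact h1.2 h3
  have htri : ∀ x y, s(x, y) ∈ C → dg G x = 2 ∨ S1 G x ∨ tyO G x := by
    intro x y h
    rcases (hcase x y h).2 with ⟨h3, _⟩ | ⟨_, h3⟩ | ⟨h3, _⟩ | ⟨_, h3, _⟩
    · exact Or.inl (W_dg h3)
    · exact Or.inr h3
    · exact Or.inr (Or.inr h3)
    · exact Or.inr (Or.inl h3)
  -- at most one outer vertex
  have hOut : ∀ z₁ z₂ y₁ y₂, s(z₁, y₁) ∈ C → s(z₂, y₂) ∈ C → tyO G z₁ → tyO G z₂ → z₁ = z₂ := by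
    intro z₁ z₂ y₁ y₂ h1 h2 hz₁ hz₂
    by_contra hne
    have hd : Disjoint (C.filter fun e => z₁ ∈ e) (C.filter fun e => z₂ ∈ e) := by
      rw [disjoint_left]
      intro e he he'
      rw [mem_filter] at he he'
      obtain ⟨w, rfl⟩ := Sym2.mem_iff_exists.1 he.2
      rcases Sym2.mem_iff.1 he'.2 with h | h
      · exact hne h.symm
      · subst h
        exact hOO _ _ he.1 hz₁ hz₂
    have h3 : ∀ z, tyO G z → ∑ e ∈ C.filter (fun e => z ∈ e), wt G K e =
        (C.filter fun e => z ∈ e).card * K := by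
      intro z hz
      rw [← smul_eq_mul, ← sum_const]
      apply sum_congr rfl
      intro e he
      exact if_pos ⟨z, (mem_filter.1 he).2, hz⟩
    have h4 : ∑ e ∈ (C.filter fun e => z₁ ∈ e) ∪ (C.filter fun e => z₂ ∈ e), wt G K e ≤
        ∑ e ∈ C, wt G K e := by
      apply sum_le_sum_of_subset
      exact union_subset (filter_subset _ _) (filter_subset _ _)
    rw [sum_union hd, h3 z₁ hz₁, h3 z₂ hz₂] at h4
    have h5 := Nat.mul_le_mul_right K (hdeg2 z₁ y₁ h1)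
    have h6 := Nat.mul_le_mul_right K (hdeg2 z₂ y₂ h2)
    omega
  -- few vertices of type `S1`
  have hV1 : (univ.filter fun x => S1 G x ∧ ∃ y, s(x, y) ∈ C).card ≤ K := by
    set V1 := univ.filter fun x => S1 G x ∧ ∃ y, s(x, y) ∈ C with hV1
    have h1 : V1.card * 2 ≤ ∑ x ∈ V1, (C.filter fun e => x ∈ e).card := by
      rw [← smul_eq_mul, ← sum_const]
      apply sum_le_sum
      intro x hx
      rw [hV1, mem_filter] at hx
      obtain ⟨_, _, y, hy⟩ := hx
      exact hdeg2 x y hy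
    have h2 : ∑ x ∈ V1, (C.filter fun e => x ∈ e).card = (V1.biUnion fun x => C.filter fun e =>
        x ∈ e).card := by
      rw [card_biUnion]
      intro x hx x' hx' hne
      rw [Function.onFun, disjoint_left]
      intro e he he'
      rw [mem_filter] at he he'
      obtain ⟨w, rfl⟩ := Sym2.mem_iff_exists.1 he.2
      rcases Sym2.mem_iff.1 he'.2 with h | h
      · exact hne h.symm
      · subst h
        rw [mem_coe, hV1, mem_filter] at hx hx'
        exact h11 _ _ he.1 hx.2.1 hx'.2.1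
    have h3 : (V1.biUnion fun x => C.filter fun e => x ∈ e).card ≤ C.card := by
      apply card_le_card
      intro e he
      obtain ⟨x, _, hx⟩ := mem_biUnion.1 he
      exact (mem_filter.1 hx).1
    have h4 : C.card * 2 ≤ ∑ e ∈ C, wt G K e := by
      rw [← smul_eq_mul, ← sum_const]
      exact sum_le_sum fun e _ => two_le_wt hK e
    omega
  -- the starting vertex
  obtain ⟨w, hw, x0, z, hE0, hx0, hwN, hz⟩ : ∃ w ∈ Wset G L, ∃ x0 z, s(w, x0) ∈ C ∧ S1 G x0 ∧
      nb G w = {x0, z} ∧ ∀ u y, s(u, y) ∈ C → ¬ S1 G u → dg G u ≠ 2 → u = z := by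
    have hrest : ∀ z, (∀ u y, s(u, y) ∈ C → tyO G u → u = z) →
        ∀ u y, s(u, y) ∈ C → ¬ S1 G u → dg G u ≠ 2 → u = z := by
      intro z hz u y h1 h2 h3
      rcases htri u y h1 with h | h | h
      · exact absurd h h3
      · exact absurd h h2
      · exact hz u y h1 h
    by_cases hex : ∃ z y, s(z, y) ∈ C ∧ tyO G z
    · obtain ⟨z, y, hzy, hzO⟩ := hex
      have hz : ∀ u y, s(u, y) ∈ C → tyO G u → u = z := fun u y' h1 h2 =>
        hOut u z y' y h1 hzy h2 hzO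
      -- an edge from `z` to `W`
      obtain ⟨w, hzw, hwc⟩ : ∃ w, s(z, w) ∈ C ∧ w ≠ ch G z := by
        by_cases hc : s(z, ch G z) ∈ C
        · obtain ⟨w, h1, h2⟩ := hdeg z (ch G z) hc
          exact ⟨w, h2, h1⟩
        · exact ⟨y, hzy, fun h' => hc (h' ▸ hzy)⟩
      have hwW : w ∈ Wset G L := by
        rcases (hcase z w hzw).2 with ⟨h3, _⟩ | ⟨h3, _⟩ | ⟨_, _, h3⟩ | ⟨_, h3, _⟩
        · have := O_dg hzO; have := W_dg h3; omega
        · exact h3
        · exact absurd h3 hwc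
        · exact absurd h3 hzO.2
      obtain ⟨x0, hx0z, hwx0⟩ := hdeg w z (hsymm _ _ hzw)
      obtain ⟨b, hb, hbN⟩ := nb_two G (W_dg hwW) ((mem_nb G).2 (hadj _ _ hwx0))
      have hbz : b = z := by
        have h1 : z ∈ nb G w := (mem_nb G).2 (hadj _ _ (hsymm _ _ hzw))
        rw [hbN, mem_insert, mem_singleton] at h1
        rcases h1 with h1 | h1
        · exact absurd h1.symm hx0z
        · exact h1.symm
      refine ⟨w, hwW, x0, z, hwx0, ?_, by rw [hbN, hbz], hrest z hz⟩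
      rcases htri x0 w (hsymm _ _ hwx0) with h | h | h
      · exact absurd h (h22 w x0 hwx0 (W_dg hwW))
      · exact h
      · exact absurd (hz x0 w (hsymm _ _ hwx0) h) hx0z
    · push Not at hex
      obtain ⟨e, he⟩ := hC
      induction e using Sym2.ind with
      | _ a b =>
        have key : ∀ a b, s(a, b) ∈ C → a ∈ Wset G L → ∃ w ∈ Wset G L, ∃ x0 z, s(w, x0) ∈ C ∧
            S1 G x0 ∧ nb G w = {x0, z} ∧
            ∀ u y, s(u, y) ∈ C → ¬ S1 G u → dg G u ≠ 2 → u = z := by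
          intro a b hab ha
          obtain ⟨z, _, hz⟩ := nb_two G (W_dg ha) ((mem_nb G).2 (hadj _ _ hab))
          refine ⟨a, ha, b, z, hab, ?_, hz, hrest z ?_⟩
          · rcases htri b a (hsymm _ _ hab) with h | h | h
            · exact absurd h (h22 a b hab (W_dg ha))
            · exact h
            · exact absurd h (hex b a (hsymm _ _ hab))
          · intro u y h1 h2
            exact absurd h2 (hex u y h1)
        rcases (hcase a b he).2 with ⟨h3, _⟩ | ⟨h3, _⟩ | ⟨h3, _⟩ | ⟨h3, _⟩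
        · exact key a b he h3
        · exact key b a (hsymm _ _ he) h3
        · exact absurd h3 (hex a b he)
        · exact absurd h3 (hex b a (hsymm _ _ he))
  refine (mem_Wset.1 hw).2.1 (start_win (fun x y => s(x, y) ∈ C) hadj hsymm hdeg h22 h11
    (W_dg hw) hE0 hx0 hwN hz ?_)
  refine le_trans (Nat.add_le_add_right (Nat.mul_le_mul_left 3 (show _ ≤ K from ?_)) 4) hKL
  convert hV1

end

end Pool.Agent.Helper74.FFT
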