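import Pool.Agent.Helper74.FFT.Main

/-!
# MP_cd9ac2_co: the surviving rate
-/

namespace Pool.Agent.Helper74.FFT

open Finset
open scoped Classical
open Pool.Agent.Helper34.FF (Tri EvenSet sn rho)

theorem nb_eq {V : Type} [Fintype V] (G : SimpleGraph V) (v : V) :
    nb G v = G.neighborFinset v := by
  ext w
  rw [mem_nb, SimpleGraph.mem_neighborFinset]

theorem sum_dg {V : Type} [Fintype V] (G : SimpleGraph V) :
    ∑ v, dg G v = 2 * G.edgeSet.ncard := by
  have h1 := G.sum_degrees_eq_twice_card_edges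
  have h2 : G.edgeSet.ncard = G.edgeFinset.card := by
    rw [Set.ncard_eq_toFinset_card']
    congr
  rw [h2, ← h1]
  refine sum_congr rfl fun v _ => ?_
  unfold dg
  rw [nb_eq]
  rfl

/-- The surviving rate of a planar graph of average degree at most `36 / 13 - ε`. -/
theorem final {V : Type} [Fintype V] (G : SimpleGraph V) (hn : 2 ≤ Fintype.card V)
    (hPl : 3 ≤ Fintype.card V → ∃ (F : Type) (_ : Fintype F) (T : Tri V F), T.Sphere ∧
      ∀ u v, G.Adj u v → T.G.Adj u v) (ε : ℝ) (hε : 0 < ε)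
    (hm : 2 * (G.edgeSet.ncard : ℝ) / (Fintype.card V : ℝ) ≤ 36 / 13 - ε) :
    1 / 120 * ε ≤ rho 1 G := by
  set n : ℝ := (Fintype.card V : ℝ) with hnn
  have hn2 : (2 : ℝ) ≤ n := by rw [hnn]; exact_mod_cast hn
  have hn0 : 0 < n := by linarith
  have hε2 : ε ≤ 36 / 13 := by
    have : 0 ≤ 2 * (G.edgeSet.ncard : ℝ) / n := by positivity
    linarith
  obtain ⟨K, hK⟩ : ∃ K : ℕ, K = ⌈8 / ε⌉₊ + 2 := ⟨_, rfl⟩
  obtain ⟨L, hL⟩ : ∃ L : ℕ, L = 3 * K + 4 := ⟨_, rfl⟩
  have hK2 : 2 ≤ K := by omega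
  have hK1 : 8 / ε ≤ K := by
    rw [hK]
    push_cast
    have := Nat.le_ceil (8 / ε)
    linarith
  have hK3 : (K : ℝ) ≤ 8 / ε + 3 := by
    rw [hK]
    push_cast
    have := Nat.ceil_lt_add_one (show 0 ≤ 8 / ε by positivity)
    linarith
  have hLr : (L : ℝ) = 3 * K + 4 := by rw [hL]; push_cast; ring
  have hKε : (K : ℝ) * ε ≤ 8 + 3 * ε := by
    have := mul_le_mul_of_nonneg_right hK3 hε.le
    rwa [add_mul, div_mul_cancel₀ _ hε.ne'] at this
  have hLε : 2 * (L : ℝ) * ε ≤ 120 := by
    rw [hLr]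
    linarith
  have hL0 : (0 : ℝ) < L := by
    rw [hLr]
    positivity
  unfold rho
  rw [le_div_iff₀ (by positivity), ← hnn]
  rcases le_or_gt n (2 * L) with hsmall | hbig
  · have h1 : n ≤ ∑ v, (sn 1 G v : ℝ) := by
      calc n = ∑ v : V, (1 : ℝ) := by simp [hnn]
        _ ≤ _ := Finset.sum_le_sum (fun v _ => by exact_mod_cast one_le_sn G v hn)
    refine le_trans ?_ h1
    have h2 : ε * n ≤ 120 := by
      calc ε * n ≤ ε * (2 * L) := mul_le_mul_of_nonneg_left hsmall hε.le
        _ = 2 * (L : ℝ) * ε := by ring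
        _ ≤ 120 := hLε
    nlinarith
  · have h3 : 3 ≤ Fintype.card V := by
      have h4 : (2 : ℝ) * 4 < n := by
        refine lt_of_le_of_lt ?_ hbig
        rw [hLr]
        have : (0 : ℝ) ≤ K := by positivity
        linarith
      have h5 : (3 : ℝ) ≤ (Fintype.card V : ℝ) := by rw [← hnn]; linarith
      exact_mod_cast h5
    obtain ⟨F, _, T, hT, hGT⟩ := hPl h3
    have hne : Nonempty V := Fintype.card_pos_iff.1 (by omega)
    have hmain := main_count (G := G) (L := L) (by omega) hK2 hL.ge T hT hGT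
    have hmain' : -(74 * (K : ℝ) * ((univ.filter (Gd G L)).card : ℝ)) - 8 * n ≤
        K * (26 * (G.edgeSet.ncard : ℝ) - 36 * n) := by
      have h1 : (∑ v, (13 * (dg G v : ℤ) - 36)) =
          26 * (G.edgeSet.ncard : ℤ) - 36 * (Fintype.card V : ℤ) := by
        rw [sum_sub_distrib, ← mul_sum, sum_const, card_univ, nsmul_eq_mul]
        have h2 : (∑ v, (dg G v : ℤ)) = 2 * (G.edgeSet.ncard : ℤ) := by
          exact_mod_cast sum_dg G
        rw [h2]
        ring
      rw [h1] at hmain
      unfold num at hmain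
      have h2 : ((-(74 * (K : ℤ) * ((univ.filter (Gd G L)).card : ℤ)) - 8 * Fintype.card V : ℤ) : ℝ)
          ≤ ((K * (26 * (G.edgeSet.ncard : ℤ) - 36 * (Fintype.card V : ℤ)) : ℤ) : ℝ) := by
        exact_mod_cast hmain
      push_cast at h2
      rw [hnn]
      exact h2
    set g : ℝ := ((univ.filter (Gd G L)).card : ℝ) with hg
    have hm' : 26 * (G.edgeSet.ncard : ℝ) ≤ 36 * n - 13 * ε * n := by
      rw [div_le_iff₀ hn0] at hm
      linarith
    have hK0 : (0 : ℝ) < K := by
      have : (2 : ℝ) ≤ K := by exact_mod_cast hK2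
      linarith
    have h8 : 8 ≤ K * ε := by
      have := mul_le_mul_of_nonneg_right hK1 hε.le
      rwa [div_mul_cancel₀ _ hε.ne'] at this
    -- many good vertices
    have hgood : 12 * ε * n ≤ 74 * g := by
      have h1 : K * (26 * (G.edgeSet.ncard : ℝ) - 36 * n) ≤ K * (- (13 * ε * n)) :=
        mul_le_mul_of_nonneg_left (by linarith) hK0.le
      have h2 : 8 * n ≤ K * ε * n := mul_le_mul_of_nonneg_right h8 hn0.le
      have h3 : K * (12 * ε * n) ≤ K * (74 * g) := by
        have h4 : K * (12 * ε * n) = K * (13 * ε * n) - K * ε * n := by ring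
        have h5 : K * (-(13 * ε * n)) = - (K * (13 * ε * n)) := by ring
        have h6 : (K : ℝ) * (74 * g) = 74 * (K : ℝ) * g := by ring
        linarith
      exact le_of_mul_le_mul_left h3 hK0
    have hsum : g * (n / 2) ≤ ∑ v, (sn 1 G v : ℝ) := by
      calc g * (n / 2) = ∑ v ∈ univ.filter (Gd G L), (n / 2) := by
            rw [sum_const, nsmul_eq_mul]
        _ ≤ ∑ v ∈ univ.filter (Gd G L), (sn 1 G v : ℝ) := by
            apply sum_le_sum
            intro v hv
            rw [mem_filter] at hv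
            have h1 := sn_of_win G hv.2
            have h2 : n ≤ (sn 1 G v : ℝ) + L := by rw [hnn]; exact_mod_cast h1
            linarith
        _ ≤ _ := by
            apply sum_le_sum_of_subset_of_nonneg (filter_subset _ _)
            intro v _ _
            positivity
    refine le_trans ?_ hsum
    have h9 : 12 * ε * n * (n / 2) ≤ 74 * g * (n / 2) :=
      mul_le_mul_of_nonneg_right hgood (by positivity)
    have h10 : 0 ≤ ε * n ^ 2 := by positivity
    nlinarith

end Pool.Agent.Helper74.FFT
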