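import Pool.Agent.Helper74.FFT.Count

/-!
# MP_cd9ac2_co: the number of good starting vertices
-/

namespace Pool.Agent.Helper74.FFT

open Finset
open scoped Classical
open Pool.Agent.Helper34.FF (Tri EvenSet)

section
variable {V F : Type} [Fintype V] [Fintype F] {G : SimpleGraph V} {L : ℕ}

/-- The number of vertices with a property. -/
noncomputable def num (p : V → Prop) : ℤ := ((univ.filter p).card : ℤ)

/-- The inequality from planarity. -/
theorem star (hL : 5 ≤ L) {K : ℕ} (hK : 2 ≤ K) (hKL : 3 * K + 4 ≤ L) (T : Tri V F)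
    (hT : T.Sphere) (hG : ∀ u v, G.Adj u v → T.G.Adj u v) [Nonempty V] :
    (K : ℤ) * (2 * num (fun y => dg G y = 2 ∧ ¬ Gd G L y ∧ jS G y = 2) +
      num (fun y => dg G y = 2 ∧ ¬ Gd G L y ∧ jS G y = 1) +
      num (fun z => tyO G z ∧ 1 ≤ jS G z)) ≤
    2 * K * (num (S1 G) + num (tyO G)) + 4 * Fintype.card V := by
  obtain ⟨v₀⟩ := (inferInstance : Nonempty V)
  obtain ⟨f₀, _⟩ := hT.face v₀
  have : Nonempty F := ⟨f₀⟩
  set U : Finset V := univ.filter fun y => dg G y = 2 ∧ ¬ Gd G L y ∧ jS G y = 2 with hU
  set D : Finset V := univ.filter fun y => dg G y = 2 ∧ ¬ Gd G L y ∧ jS G y = 1 with hD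
  have hUD : Disjoint U D := by
    rw [disjoint_left]
    intro y h1 h2
    rw [hU, mem_filter] at h1
    rw [hD, mem_filter] at h2
    omega
  have hW : Wset G L = U ∪ D := by
    ext y
    rw [mem_union, hU, hD, mem_filter, mem_filter, mem_Wset]
    have h1 : jS G y ≤ dg G y := cnt_le _ _
    constructor
    · rintro ⟨h2, h3, h4⟩
      rcases Nat.lt_or_ge (jS G y) 2 with h5 | h5
      · exact Or.inr ⟨mem_univ _, h2, h3, by omega⟩
      · exact Or.inl ⟨mem_univ _, h2, h3, by omega⟩
    · rintro (⟨_, h2, h3, h4⟩ | ⟨_, h2, h3, h4⟩)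
      · exact ⟨h2, h3, by omega⟩
      · exact ⟨h2, h3, by omega⟩
  have hsum : ∀ f g : ℕ, ∀ h : Sym2 V → ℕ,
      (∀ y ∈ U, ∑ x ∈ nb G y, h s(y, x) = f) → (∀ y ∈ D, ∑ x ∈ nb G y, h s(y, x) = g) →
      ∑ y ∈ Wset G L, ∑ x ∈ nb G y, h s(y, x) = U.card * f + D.card * g := by
    intro f g h h1 h2
    rw [hW, sum_union hUD, sum_congr rfl h1, sum_congr rfl h2, sum_const, sum_const,
      smul_eq_mul, smul_eq_mul]
  -- the number of edges
  have hcard : (EA G L).card = U.card * 2 + D.card * 2 + (OD G).card := by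
    have h1 := sum_EA hL (fun _ : Sym2 V => 1) (G := G)
    rw [sum_const, smul_eq_mul, mul_one] at h1
    rw [h1, hsum 2 2 (fun _ => 1)]
    · simp
    · intro y hy
      rw [hU, mem_filter] at hy
      rw [sum_const, smul_eq_mul, mul_one]
      exact hy.2.1
    · intro y hy
      rw [hD, mem_filter] at hy
      rw [sum_const, smul_eq_mul, mul_one]
      exact hy.2.1
  -- the total weight
  have hwt : ∑ e ∈ EA G L, wt G K e = U.card * 4 + D.card * (2 + K) + (OD G).card * K := by
    rw [sum_EA hL]
    have h0 : ∀ y, dg G y = 2 → ¬ Gd G L y → ∑ x ∈ nb G y, wt G K s(y, x) =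
        jS G y * 2 + (2 - jS G y) * K := by
      intro y hy hyG
      have hyO : ¬ tyO G y := fun h => by have := h.1; omega
      rw [← sum_filter_add_sum_filter_not (nb G y) (S1 G)]
      have h1 : ∑ x ∈ (nb G y).filter (S1 G), wt G K s(y, x) = jS G y * 2 := by
        rw [sum_congr rfl (g := fun _ => 2), sum_const, smul_eq_mul]
        · rfl
        · intro x hx
          rw [mem_filter] at hx
          exact wt_S hyO fun h => h.2 hx.2
      have h2 : ∑ x ∈ (nb G y).filter (fun x => ¬ S1 G x), wt G K s(y, x) =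
          (2 - jS G y) * K := by
        rw [sum_congr rfl (g := fun _ => K), sum_const, smul_eq_mul]
        · congr 1
          have h3 := cnt_add (G := G) (S1 G) y
          rw [hy] at h3
          have h4 : jS G y = cnt G (S1 G) y := rfl
          have h5 : ((nb G y).filter (fun x => ¬ S1 G x)).card = cnt G (fun x => ¬ S1 G x) y := by
            unfold cnt
            congr
          omega
        · intro x hx
          rw [mem_filter] at hx
          exact wt_O ((nbr_type hL hy hyG hx.1).resolve_left hx.2)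
      rw [h1, h2]
    congr 1
    · apply hsum
      · intro y hy
        rw [hU, mem_filter] at hy
        rw [h0 y hy.2.1 hy.2.2.1, hy.2.2.2]
        simp
      · intro y hy
        rw [hD, mem_filter] at hy
        rw [h0 y hy.2.1 hy.2.2.1, hy.2.2.2]
        omega
    · rw [sum_congr rfl (g := fun _ => K), sum_const, smul_eq_mul]
      intro z hz
      exact wt_O' (mem_OD.1 hz).1
  -- the covered vertices
  set VA : Finset V := Wset G L ∪ ((univ.filter (S1 G)) ∪ (univ.filter (tyO G))) with hVA
  have hcov : ∀ e ∈ EA G L, ∀ v ∈ e, v ∈ VA := by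
    intro e he v hv
    obtain ⟨u, rfl⟩ := Sym2.mem_iff_exists.1 hv
    rw [hVA, mem_union, mem_union, mem_filter, mem_filter]
    rcases (EA_cases hL he).2 with ⟨h3, _⟩ | ⟨_, h3 | h3⟩ | ⟨h3, _⟩ | ⟨_, h3, _⟩
    · exact Or.inl h3
    · exact Or.inr (Or.inl ⟨mem_univ _, h3⟩)
    · exact Or.inr (Or.inr ⟨mem_univ _, h3⟩)
    · exact Or.inr (Or.inr ⟨mem_univ _, h3⟩)
    · exact Or.inr (Or.inl ⟨mem_univ _, h3⟩)
  have hEA : ∀ e ∈ EA G L, e ∈ T.G.edgeSet := by
    intro e he
    induction e using Sym2.ind with
    | _ a b => exact hG _ _ (EA_cases hL he).1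
  have hmain := euler_ineq T (EA G L) hT hEA VA hcov (wt G K) (4 * K)
    (fun C h1 h2 h3 => light hL hK hKL C h1 h2 h3)
  have hVAc : VA.card ≤ U.card + D.card + ((univ.filter (S1 G)).card +
      (univ.filter (tyO G)).card) := by
    refine (card_union_le _ _).trans (Nat.add_le_add ?_ (card_union_le _ _))
    rw [hW]
    exact card_union_le _ _
  have hn : U.card + D.card ≤ Fintype.card V := by
    rw [← card_union_of_disjoint hUD]
    exact card_le_univ _
  rw [hcard, hwt] at hmain
  have hOD : num (fun z => tyO G z ∧ 1 ≤ jS G z) = (OD G).card := by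
    unfold num OD
    congr
  have hUU : num (fun y => dg G y = 2 ∧ ¬ Gd G L y ∧ jS G y = 2) = U.card := by
    unfold num
    rw [hU]
    congr
  have hDD : num (fun y => dg G y = 2 ∧ ¬ Gd G L y ∧ jS G y = 1) = D.card := by
    unfold num
    rw [hD]
    congr
  rw [hOD, hUU, hDD]
  unfold num
  have h1 : ((4 * K * (U.card * 2 + D.card * 2 + (OD G).card) : ℕ) : ℤ) ≤
      ((4 * K * (U.card + D.card + ((univ.filter (S1 G)).card + (univ.filter (tyO G)).card)) +
        2 * (U.card * 4 + D.card * (2 + K) + (OD G).card * K) : ℕ) : ℤ) := by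
    exact_mod_cast hmain.trans (Nat.add_le_add_right (Nat.mul_le_mul_left _ hVAc) _)
  have h2 : ((U.card : ℤ) + D.card) ≤ Fintype.card V := by exact_mod_cast hn
  have h3 : (0 : ℤ) ≤ D.card := by positivity
  push_cast at h1
  nlinarith

theorem sum_num (p : V → Prop) : ∑ v, ind (p v) = num p := sum_ind p

theorem sum_num_mul (p : V → Prop) (k : ℕ) (f : V → ℕ) (h : ∀ v, p v → f v = k) :
    ∑ v, ind (p v) * (f v : ℤ) = k * num p := by
  rw [← sum_num, mul_sum]
  refine sum_congr rfl fun v _ => ?_
  by_cases hv : p v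
  · rw [ind_true hv, h v hv]; ring
  · rw [ind_false hv]; ring

theorem sum_num_mul_le (p : V → Prop) (k : ℕ) (f : V → ℕ) (h : ∀ v, p v → f v ≤ k) :
    ∑ v, ind (p v) * (f v : ℤ) ≤ k * num p := by
  rw [← sum_num, mul_sum]
  refine sum_le_sum fun v _ => ?_
  by_cases hv : p v
  · rw [ind_true hv, one_mul, mul_one]; exact_mod_cast h v hv
  · rw [ind_false hv]; simp

theorem num_mono {p q : V → Prop} (h : ∀ v, p v → q v) : num p ≤ num q := by
  unfold num
  exact_mod_cast card_le_card fun v hv => by
    rw [mem_filter] at hv ⊢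
    exact ⟨hv.1, h v hv.2⟩

theorem cnt_pos {p : V → Prop} {x v : V} (hv : v ∈ nb G x) (hp : p v) : 1 ≤ cnt G p x :=
  card_pos.2 ⟨v, mem_filter.2 ⟨hv, hp⟩⟩

theorem num_nonneg (p : V → Prop) : 0 ≤ num p := by unfold num; positivity

/-- The vertices of type `B` with a good neighbour. -/
theorem num_Bs : num (tyBs G L) ≤ 2 * num (Gd G L) := by
  have h1 : num (tyBs G L) ≤ ∑ x, ind (tyB G x) * (cnt G (fun v => dg G v = 2 ∧ Gd G L v) x : ℤ) := by
    rw [← sum_num]
    refine sum_le_sum fun x _ => ?_
    by_cases hx : tyBs G L x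
    · obtain ⟨v, hv, hv2, hvG⟩ := hx.2
      have h3 : 1 ≤ cnt G (fun v => dg G v = 2 ∧ Gd G L v) x := cnt_pos hv ⟨hv2, hvG⟩
      rw [ind_true hx, ind_true hx.1, one_mul]
      exact_mod_cast h3
    · rw [ind_false hx]
      exact mul_nonneg (ind_nonneg _) (by positivity)
  rw [dc] at h1
  refine h1.trans ((sum_num_mul_le _ 2 _ fun v hv => ?_).trans ?_)
  · exact (cnt_le _ _).trans hv.1.le
  · have := num_mono (p := fun v => dg G v = 2 ∧ Gd G L v) (q := Gd G L) fun v hv => hv.2
    push_cast
    linarith

/-- The vertices of type `D`. -/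
theorem num_D (hL : 5 ≤ L) : num (tyD G) ≤ num (Gd G L) := by
  have h1 : 2 * num (tyD G) ≤ ∑ x, ind (tyD G x) * (cnt G (fun v => dg G v = 2) x : ℤ) := by
    rw [← sum_num, mul_sum]
    refine sum_le_sum fun x _ => ?_
    by_cases hx : tyD G x
    · rw [ind_true hx, one_mul, mul_one]
      have := hx.2
      rw [tw_eq] at this
      exact_mod_cast this
    · rw [ind_false hx]; simp
  rw [dc] at h1
  have h2 : ∑ y, ind (dg G y = 2) * (cnt G (tyD G) y : ℤ) ≤ 2 * num (Gd G L) := by
    rw [← sum_num, mul_sum]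
    refine sum_le_sum fun y _ => ?_
    by_cases hy : dg G y = 2
    · rw [ind_true hy, one_mul]
      by_cases hG : Gd G L y
      · rw [ind_true hG]
        have := cnt_le (G := G) (tyD G) y
        rw [hy] at this
        exact_mod_cast this
      · have h0 : cnt G (tyD G) y = 0 := by
          unfold cnt
          rw [card_eq_zero, filter_eq_empty_iff]
          exact fun x hx => f2 hL hy hG hx
        rw [h0]
        have := ind_nonneg (Gd G L y)
        push_cast
        linarith
    · rw [ind_false hy, zero_mul]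
      have := ind_nonneg (Gd G L y)
      linarith
  linarith

/-- The total charge is large unless there are many good vertices. -/
theorem main_count (hL : 5 ≤ L) {K : ℕ} (hK : 2 ≤ K) (hKL : 3 * K + 4 ≤ L) (T : Tri V F)
    (hT : T.Sphere) (hG : ∀ u v, G.Adj u v → T.G.Adj u v) [Nonempty V] :
    -(74 * (K : ℤ) * num (Gd G L)) - 8 * Fintype.card V ≤ K * ∑ v, (13 * (dg G v : ℤ) - 36) := by
  have hstar := star hL hK hKL T hT hG (G := G)
  have hBs := num_Bs (G := G) (L := L)
  have hD := num_D (G := G) hL
  -- the charges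
  have hI : -36 * num (Gd G L) - 4 * num (tyA G) + num (tyA' G) - 2 * num (tyB G) +
      3 * num (tyC G) - 12 * num (tyD G) + 4 * num (tyO G) +
      2 * (∑ v, ind (tyO G v) * (jS G v : ℤ)) - 2 * num (fun z => tyO G z ∧ 1 ≤ jS G z) ≤
      ∑ v, (13 * (dg G v : ℤ) - 36) := by
    have h1 := sum_le_sum (s := univ) fun v (_ : v ∈ univ) => charge_bound (G := G) (L := L) hL v
    simp only [sum_add_distrib, sum_sub_distrib, ← mul_sum, sum_num] at h1
    rw [dc (G := G) (fun x => dg G x = 2) (fun x => 3 ≤ dg G x)] at h1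
    simp only [sum_sub_distrib, ← mul_sum]
    linarith
  -- the edges at `S1`
  have hII : 4 * num (tyA G) + 4 * num (tyA' G) + 3 * num (tyB G) ≤
      2 * num (fun y => dg G y = 2 ∧ ¬ Gd G L y ∧ jS G y = 2) +
      num (fun y => dg G y = 2 ∧ ¬ Gd G L y ∧ jS G y = 1) + 2 * num (Gd G L) + num (tyD G) +
      (∑ v, ind (tyO G v) * (jS G v : ℤ)) + num (tyA' G) + num (tyC G) + 2 * num (tyBs G L) +
      num (tyA' G) + 3 * num (tyBs G L) := by
    have h1 := sum_le_sum (s := univ) fun v (_ : v ∈ univ) => jS_bound (G := G) (L := L) hL v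
    simp only [sum_add_distrib, ← mul_sum, sum_num] at h1
    have h2 : ∑ y, (jS G y : ℤ) = 4 * num (tyA G) + 4 * num (tyA' G) + 3 * num (tyB G) := by
      have h3 : ∑ y, (jS G y : ℤ) = ∑ y, ind True * (cnt G (S1 G) y : ℤ) := by
        refine sum_congr rfl fun y _ => ?_
        rw [ind_true trivial, one_mul]
        rfl
      rw [h3]
      rw [dc (G := G) (S1 G) (fun _ => True)]
      have h4 : ∀ x, ind (S1 G x) * (cnt G (fun _ => True) x : ℤ) =
          4 * ind (tyA G x) + 4 * ind (tyA' G x) + 3 * ind (tyB G x) := by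
        intro x
        rw [cnt_true]
        by_cases hx : S1 G x
        · rcases (S1_iff x).1 hx with h | h | h
          · rw [ind_true hx, ind_true h,
              ind_false (p := tyA' G x) (fun h' => by have := h'.2; have := h.2; omega),
              ind_false (p := tyB G x) (fun h' => by have := h'.2; have := h.2; omega), h.1]
            norm_num
          · rw [ind_true hx, ind_true h,
              ind_false (p := tyA G x) (fun h' => by have := h'.2; have := h.2; omega),
              ind_false (p := tyB G x) (fun h' => by have := h'.2; have := h.2; omega), h.1]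
            norm_num
          · rw [ind_true hx, ind_true h,
              ind_false (p := tyA G x) (fun h' => by have := h'.2; have := h.2; omega),
              ind_false (p := tyA' G x) (fun h' => by have := h'.2; have := h.2; omega), h.1]
            norm_num
        · have hS' := fun h' => hx ((S1_iff x).2 h')
          rw [ind_false hx, ind_false (p := tyA G x) (fun h' => hS' (Or.inl h')),
            ind_false (p := tyA' G x) (fun h' => hS' (Or.inr (Or.inl h'))),
            ind_false (p := tyB G x) (fun h' => hS' (Or.inr (Or.inr h')))]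
          norm_num
      rw [sum_congr rfl fun x _ => h4 x]
      simp only [sum_add_distrib, ← mul_sum, sum_num]
    have h3 : ∑ y, ind (dg G y ≠ 2) * (cnt G (tyA' G) y : ℤ) = num (tyA' G) := by
      rw [dc (G := G) (tyA' G) (fun y => dg G y ≠ 2)]
      rw [sum_num_mul (tyA' G) 1]
      · simp
      · intro x hx
        have h4 := cnt_add (G := G) (fun x => dg G x = 2) x
        rw [← tw_eq, hx.1, hx.2] at h4
        have h5 : cnt G (fun x => ¬ dg G x = 2) x = cnt G (fun y => dg G y ≠ 2) x := rfl
        omega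
    have h5 : ∑ y, (cnt G (tyBs G L) y : ℤ) = 3 * num (tyBs G L) := by
      have h6 : ∑ y, (cnt G (tyBs G L) y : ℤ) = ∑ y, ind True * (cnt G (tyBs G L) y : ℤ) := by
        refine sum_congr rfl fun y _ => ?_
        rw [ind_true trivial, one_mul]
      rw [h6, dc (G := G) (tyBs G L) (fun _ => True)]
      rw [sum_num_mul (tyBs G L) 3]
      · simp
      · intro x hx
        rw [cnt_true]
        exact hx.1.1
    rw [h2, h3, h5] at h1
    linarith
  have hS1 : num (S1 G) ≤ num (tyA G) + num (tyA' G) + num (tyB G) := by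
    rw [← sum_num, ← sum_num, ← sum_num, ← sum_num, ← sum_add_distrib, ← sum_add_distrib]
    refine sum_le_sum fun x _ => ?_
    have n1 := ind_nonneg (tyA G x)
    have n2 := ind_nonneg (tyA' G x)
    have n3 := ind_nonneg (tyB G x)
    by_cases hx : S1 G x
    · rw [ind_true hx]
      rcases (S1_iff x).1 hx with h | h | h
      · rw [ind_true h]; linarith
      · rw [ind_true h]; linarith
      · rw [ind_true h]; linarith
    · rw [ind_false hx]
      linarith
  have hK0 : (0 : ℤ) ≤ K := by positivity
  have nA' := num_nonneg (tyA' G)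
  have nC := num_nonneg (tyC G)
  generalize num (tyA G) = a at *
  generalize num (tyA' G) = a' at *
  generalize num (tyB G) = b at *
  generalize num (tyC G) = c at *
  generalize num (tyD G) = d at *
  generalize num (tyO G) = o at *
  generalize num (tyBs G L) = bs at *
  generalize num (Gd G L) = g at *
  generalize (∑ v, ind (tyO G v) * (jS G v : ℤ)) = R at *
  generalize num (fun z => tyO G z ∧ 1 ≤ jS G z) = d1 at *
  generalize num (fun y => dg G y = 2 ∧ ¬ Gd G L y ∧ jS G y = 2) = u at *
  generalize num (fun y => dg G y = 2 ∧ ¬ Gd G L y ∧ jS G y = 1) = d2 at *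
  generalize num (S1 G) = s at *
  generalize (∑ v, (13 * (dg G v : ℤ) - 36)) = tot at *
  generalize (Fintype.card V : ℤ) = n at *
  generalize (K : ℤ) = k at *
  have e1 := mul_le_mul_of_nonneg_left hI hK0
  have e2 := mul_le_mul_of_nonneg_left hII hK0
  have e3 := mul_le_mul_of_nonneg_left hS1 hK0
  have e4 := mul_le_mul_of_nonneg_left hBs hK0
  have e5 := mul_le_mul_of_nonneg_left hD hK0
  have e6 := mul_nonneg hK0 nA'
  have e7 := mul_nonneg hK0 nC
  nlinarith

end

end Pool.Agent.Helper74.FFT
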