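import Pool.Agent.Helper74.FFT.Win

/-!
# MP_cd9ac2_co: good starting vertices
-/

namespace Pool.Agent.Helper74.FFT

open Finset
open scoped Classical

section
variable {V : Type} [Fintype V] (G : SimpleGraph V)

/-- The degree. -/
noncomputable def dg (v : V) : ℕ := (nb G v).card

/-- The number of neighbours of degree two. -/
noncomputable def tw (v : V) : ℕ := ((nb G v).filter fun w => dg G w = 2).card

theorem nb_symm {v w : V} (h : w ∈ nb G v) : v ∈ nb G w := (mem_nb G).2 ((mem_nb G).1 h).symm

theorem nb_ne {v w : V} (h : w ∈ nb G v) : w ≠ v := ((mem_nb G).1 h).ne'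

theorem nb_two {v a : V} (h : dg G v = 2) (ha : a ∈ nb G v) : ∃ b, b ≠ a ∧ nb G v = {a, b} := by
  obtain ⟨x, y, hxy, h2⟩ := card_eq_two.1 h
  rw [h2, mem_insert, mem_singleton] at ha
  rcases ha with rfl | rfl
  · exact ⟨y, hxy.symm, h2⟩
  · exact ⟨x, hxy, by rw [h2, pair_comm]⟩

theorem nb_three {v a b : V} (h : dg G v = 3) (ha : a ∈ nb G v) (hb : b ∈ nb G v) (hab : a ≠ b) :
    ∃ c, c ≠ a ∧ c ≠ b ∧ nb G v = {a, b, c} := by
  have h1 : ({a, b} : Finset V) ⊆ nb G v := by
    intro x hx
    rw [mem_insert, mem_singleton] at hx
    rcases hx with rfl | rfl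
    · exact ha
    · exact hb
  have h2 : (nb G v \ {a, b}).card = 1 := by
    rw [card_sdiff_of_subset h1, card_pair hab]
    have : (nb G v).card = 3 := h
    omega
  obtain ⟨c, hc⟩ := card_eq_one.1 h2
  have h3 : c ∈ nb G v \ {a, b} := by rw [hc]; exact mem_singleton_self c
  rw [mem_sdiff, mem_insert, mem_singleton, not_or] at h3
  refine ⟨c, h3.2.1, h3.2.2, ?_⟩
  rw [← union_sdiff_of_subset h1, hc]
  ext x
  simp only [mem_union, mem_insert, mem_singleton]
  tauto

theorem nb_four {v a b : V} (h : dg G v = 4) (ht : 3 ≤ tw G v) (ha : a ∈ nb G v)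
    (hb : b ∈ nb G v) (hab : a ≠ b) :
    ∃ w r, w ∈ nb G v ∧ dg G w = 2 ∧ w ≠ a ∧ w ≠ b ∧ nb G v = {a, b, w, r} := by
  have h1 : ({a, b} : Finset V) ⊆ nb G v := by
    intro x hx
    rw [mem_insert, mem_singleton] at hx
    rcases hx with rfl | rfl
    · exact ha
    · exact hb
  obtain ⟨w, hw, hw2⟩ : ∃ w ∈ (nb G v).filter (fun w => dg G w = 2), w ∉ ({a, b} : Finset V) := by
    by_contra hcon
    push Not at hcon
    have h3 := card_le_card (s := (nb G v).filter (fun w => dg G w = 2)) (t := {a, b}) hcon
    rw [card_pair hab] at h3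
    have : 3 ≤ ((nb G v).filter (fun w => dg G w = 2)).card := ht
    omega
  rw [mem_filter] at hw
  have h4 : insert w ({a, b} : Finset V) ⊆ nb G v := insert_subset hw.1 h1
  have h2 : (nb G v \ insert w {a, b}).card = 1 := by
    rw [card_sdiff_of_subset h4, card_insert_of_notMem hw2, card_pair hab]
    have : (nb G v).card = 4 := h
    omega
  obtain ⟨c, hc⟩ := card_eq_one.1 h2
  rw [mem_insert, mem_singleton, not_or] at hw2
  refine ⟨w, c, hw.1, hw.2, hw2.1, hw2.2, ?_⟩
  rw [← union_sdiff_of_subset h4, hc]
  ext x
  simp only [mem_union, mem_insert, mem_singleton]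
  tauto

variable {G}

theorem Win.step' {L : ℕ} {X S X' S' : Finset V} (p : V) (hX : X ⊆ X')
    (hS : S' ⊆ X' ∪ insert p S) (hN : ∀ x ∈ X, nb G x ⊆ S') (h : Win G L X' S') :
    Win G L X S :=
  Win.step X S X' p hX (fun x hx => (hN x hx).trans hS) (win_mono G le_rfl h _ hS)

/-- The head of the fire moves from `h` to `y`, the vertex `r` is protected. -/
theorem pass {L : ℕ} {X S : Finset V} (h y r : V) (hX : ∀ x ∈ X, x ≠ h → nb G x ⊆ S)
    (hh : nb G h ⊆ insert y (insert r S))
    (next : (∀ x ∈ insert y X, x ≠ y → nb G x ⊆ insert y (insert r S)) →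
      Win G L (insert y X) (insert y (insert r S))) : Win G L X S := by
  have h1 : ∀ x ∈ X, nb G x ⊆ insert y (insert r S) := by
    intro x hx
    by_cases hxh : x = h
    · rw [hxh]; exact hh
    · exact (hX x hx hxh).trans ((subset_insert _ _).trans (subset_insert _ _))
  refine Win.step' (X' := insert y X) (S' := insert y (insert r S)) r (subset_insert _ _) ?_ h1
    (next ?_)
  · intro x hx
    simp only [mem_insert, mem_union] at hx ⊢
    tauto
  · intro x hx hxy
    rcases mem_insert.1 hx with rfl | hx
    · exact absurd rfl hxy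
    · exact h1 x hx

/-- The last step. -/
theorem fin {L : ℕ} {X S : Finset V} (h r : V) (hX : ∀ x ∈ X, x ≠ h → nb G x ⊆ S)
    (hh : nb G h ⊆ insert r S) (hL : X.card ≤ L) : Win G L X S := by
  have h1 : ∀ x ∈ X, nb G x ⊆ insert r S := by
    intro x hx
    by_cases hxh : x = h
    · rw [hxh]; exact hh
    · exact (hX x hx hxh).trans (subset_insert _ _)
  exact Win.step' (X' := X) (S' := insert r S) r (Subset.refl _) subset_union_right h1
    (Win.done _ _ h1 hL)

theorem card_ins {X : Finset V} {y : V} {k : ℕ} (h : X.card ≤ k) : (insert y X).card ≤ k + 1 :=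
  (card_insert_le _ _).trans (Nat.add_le_add_right h 1)

/-- G0. -/
theorem good0 {L : ℕ} (hL : 1 ≤ L) {v : V} (hv : dg G v ≤ 1) : Win G L {v} {v} := by
  have : Nonempty V := ⟨v⟩
  obtain ⟨u, hu⟩ := card_le_one_iff_subset_singleton.1 hv
  refine fin v u ?_ ?_ (by simpa using hL)
  · intro x hx hxv
    exact absurd (mem_singleton.1 hx) hxv
  · exact hu.trans (singleton_subset_iff.2 (mem_insert_self _ _))

theorem start {L : ℕ} {v z b : V} (hv : nb G v ⊆ {z, b})
    (next : (∀ x ∈ ({b, v} : Finset V), x ≠ b → nb G x ⊆ {b, z, v}) →
      Win G L {b, v} {b, z, v}) : Win G L {v} {v} := by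
  refine pass v b z ?_ ?_ next
  · intro x hx hxv
    exact absurd (mem_singleton.1 hx) hxv
  · intro x hx
    have := hv hx
    simp only [mem_insert, mem_singleton] at this ⊢
    tauto

/-- G1. -/
theorem good1 {L : ℕ} (hL : 2 ≤ L) {v z a c : V} (hv : nb G v ⊆ {z, a}) (ha : nb G a ⊆ {v, c}) :
    Win G L {v} {v} := by
  refine start hv fun hX => ?_
  refine fin a c hX ?_ ?_
  · intro x hx
    have := ha hx
    simp only [mem_insert, mem_singleton] at this ⊢
    tauto
  · exact (card_ins (by simp : ({v} : Finset V).card ≤ 1)).trans hL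

/-- G2. -/
theorem good2 {L : ℕ} (hL : 3 ≤ L) {v z b u r w : V} (hv : nb G v ⊆ {z, b})
    (hb : nb G b ⊆ {v, u, r}) (hu : nb G u ⊆ {b, w}) : Win G L {v} {v} := by
  refine start hv fun hX => ?_
  refine pass b u r hX ?_ fun hX => ?_
  · intro x hx
    have := hb hx
    simp only [mem_insert, mem_singleton] at this ⊢
    tauto
  refine fin u w hX ?_ ?_
  · intro x hx
    have := hu hx
    simp only [mem_insert, mem_singleton] at this ⊢
    tauto
  · exact (card_ins (card_ins (by simp : ({v} : Finset V).card ≤ 1))).trans hL

/-- G3. -/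
theorem good3 {L : ℕ} (hL : 4 ≤ L) {v z b r b' u s w : V} (hv : nb G v ⊆ {z, b})
    (hb : nb G b ⊆ {v, b', r}) (hb' : nb G b' ⊆ {b, u, s}) (hu : nb G u ⊆ {b', w}) :
    Win G L {v} {v} := by
  refine start hv fun hX => ?_
  refine pass b b' r hX ?_ fun hX => ?_
  · intro x hx
    have := hb hx
    simp only [mem_insert, mem_singleton] at this ⊢
    tauto
  refine pass b' u s hX ?_ fun hX => ?_
  · intro x hx
    have := hb' hx
    simp only [mem_insert, mem_singleton] at this ⊢
    tauto
  refine fin u w hX ?_ ?_
  · intro x hx
    have := hu hx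
    simp only [mem_insert, mem_singleton] at this ⊢
    tauto
  · exact (card_ins (card_ins (card_ins (by simp : ({v} : Finset V).card ≤ 1)))).trans hL

/-- G4. -/
theorem good4 {L : ℕ} (hL : 5 ≤ L) {v z b r c s b' u q w : V} (hv : nb G v ⊆ {z, b})
    (hb : nb G b ⊆ {v, c, r}) (hc : nb G c ⊆ {b, b', s}) (hb' : nb G b' ⊆ {c, u, q})
    (hu : nb G u ⊆ {b', w}) : Win G L {v} {v} := by
  refine start hv fun hX => ?_
  refine pass b c r hX ?_ fun hX => ?_
  · intro x hx
    have := hb hx
    simp only [mem_insert, mem_singleton] at this ⊢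
    tauto
  refine pass c b' s hX ?_ fun hX => ?_
  · intro x hx
    have := hc hx
    simp only [mem_insert, mem_singleton] at this ⊢
    tauto
  refine pass b' u q hX ?_ fun hX => ?_
  · intro x hx
    have := hb' hx
    simp only [mem_insert, mem_singleton] at this ⊢
    tauto
  refine fin u w hX ?_ ?_
  · intro x hx
    have := hu hx
    simp only [mem_insert, mem_singleton] at this ⊢
    tauto
  · exact (card_ins (card_ins (card_ins (card_ins
      (by simp : ({v} : Finset V).card ≤ 1))))).trans hL

/-! ## Steering along short cycles -/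

/-- The types `A`, `A'`, `B`. -/
def S1 (G : SimpleGraph V) (x : V) : Prop :=
  (dg G x = 4 ∧ 3 ≤ tw G x) ∨ (dg G x = 3 ∧ tw G x = 1)

/-- The head of the fire is steered along the edges of `E`. -/
theorem head_win {L : ℕ} (E : V → V → Prop) (hadj : ∀ x y, E x y → G.Adj x y)
    (hsymm : ∀ x y, E x y → E y x) (hdeg : ∀ x y, E x y → ∃ z, z ≠ y ∧ E x z)
    (h22 : ∀ x y, E x y → dg G x = 2 → dg G y ≠ 2)
    (h11 : ∀ x y, E x y → S1 G x → ¬ S1 G y) :
    ∀ (m : ℕ) (X S : Finset V) (x e : V), x ∈ S → (∀ u ∈ X, u ≠ x → nb G u ⊆ S) → S1 G x →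
      E x e → dg G e = 2 → e ∈ S → (∀ u y, E u y → ¬ S1 G u → dg G u ≠ 2 → u ∈ S) →
      ((univ.filter fun x => S1 G x ∧ ∃ y, E x y) \ S).card ≤ m → X.card + 3 * m + 2 ≤ L →
      Win G L X S := by
  intro m
  induction m using Nat.strong_induction_on with
  | _ m ih =>
    intro X S x e hxS hX hx hxe he heS hz hm hL
    obtain ⟨c, hce, hxc⟩ := hdeg x e hxe
    have hen : e ∈ nb G x := (mem_nb G).2 (hadj _ _ hxe)
    have hcn : c ∈ nb G x := (mem_nb G).2 (hadj _ _ hxc)
    by_cases hcS : c ∈ S
    · -- closing directly
      rcases hx with ⟨h4, ht⟩ | ⟨h3, ht⟩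
      · obtain ⟨w, r, hw, hw2, _, _, hN⟩ := nb_four G h4 ht hen hcn hce.symm
        obtain ⟨f, _, hwN⟩ := nb_two G hw2 (nb_symm G hw)
        refine pass x w r hX ?_ fun hX => ?_
        · rw [hN]
          intro y hy
          simp only [mem_insert, mem_singleton] at hy ⊢
          rcases hy with rfl | rfl | rfl | rfl
          · exact Or.inr (Or.inr heS)
          · exact Or.inr (Or.inr hcS)
          · exact Or.inl rfl
          · exact Or.inr (Or.inl rfl)
        refine fin w f hX ?_ ?_
        · rw [hwN]
          intro y hy
          simp only [mem_insert, mem_singleton] at hy ⊢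
          rcases hy with rfl | rfl
          · exact Or.inr (Or.inr (Or.inr hxS))
          · exact Or.inl rfl
        · have := card_ins (y := w) (le_refl X.card)
          omega
      · obtain ⟨r, _, _, hN⟩ := nb_three G h3 hen hcn hce.symm
        refine fin x r hX ?_ (by omega)
        rw [hN]
        intro y hy
        simp only [mem_insert, mem_singleton] at hy ⊢
        rcases hy with rfl | rfl | rfl
        · exact Or.inr heS
        · exact Or.inr hcS
        · exact Or.inl rfl
    · -- the other neighbour is a vertex of degree two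
      have hc2 : dg G c = 2 := by
        by_contra hc2
        exact hcS (hz c x (hsymm _ _ hxc) (h11 x c hxc hx) hc2)
      obtain ⟨x', hx'x, hcx'⟩ := hdeg c x (hsymm _ _ hxc)
      have hcN : nb G c = {x, x'} := by
        obtain ⟨b, hb, hbN⟩ := nb_two G hc2 (nb_symm G hcn)
        have h1 : x' ∈ nb G c := (mem_nb G).2 (hadj _ _ hcx')
        rw [hbN, mem_insert, mem_singleton] at h1
        rcases h1 with h1 | h1
        · exact absurd h1 hx'x
        · rw [hbN, h1]
      have hx'2 : dg G x' ≠ 2 := h22 c x' hcx' hc2
      have hA : dg G x = 4 ∧ 3 ≤ tw G x := by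
        rcases hx with h | ⟨h3, ht⟩
        · exact h
        · exfalso
          obtain ⟨a, ha⟩ := card_eq_one.1 ht
          have h1 : e ∈ (nb G x).filter (fun w => dg G w = 2) := mem_filter.2 ⟨hen, he⟩
          have h2 : c ∈ (nb G x).filter (fun w => dg G w = 2) := mem_filter.2 ⟨hcn, hc2⟩
          rw [ha, mem_singleton] at h1 h2
          exact hce (h2.trans h1.symm)
      obtain ⟨w, r, hw, hw2, hwe, hwc, hN⟩ := nb_four G hA.1 hA.2 hen hcn hce.symm
      obtain ⟨f, _, hwN⟩ := nb_two G hw2 (nb_symm G hw)
      -- the first step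
      have hS' : ∀ u ∈ X, nb G u ⊆ insert c (insert w (insert r S)) := by
        intro u hu
        by_cases hux : u = x
        · rw [hux, hN]
          intro y hy
          simp only [mem_insert, mem_singleton] at hy ⊢
          rcases hy with rfl | rfl | rfl | rfl
          · exact Or.inr (Or.inr (Or.inr heS))
          · exact Or.inl rfl
          · exact Or.inr (Or.inl rfl)
          · exact Or.inr (Or.inr (Or.inl rfl))
        · intro y hy
          exact mem_insert_of_mem (mem_insert_of_mem (mem_insert_of_mem (hX u hu hux hy)))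
      refine Win.step' (X' := insert c (insert w X)) (S' := insert c (insert w (insert r S))) r
        ((subset_insert _ _).trans (subset_insert _ _)) ?_ hS' ?_
      · intro y hy
        simp only [mem_insert, mem_union] at hy ⊢
        tauto
      by_cases hx'S : x' ∈ S
      · refine fin w f ?_ ?_ ?_
        · intro u hu huw
          rcases mem_insert.1 hu with rfl | hu
          · rw [hcN]
            intro y hy
            simp only [mem_insert, mem_singleton] at hy ⊢
            rcases hy with rfl | rfl
            · exact Or.inr (Or.inr (Or.inr hxS))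
            · exact Or.inr (Or.inr (Or.inr hx'S))
          rcases mem_insert.1 hu with rfl | hu
          · exact absurd rfl huw
          · exact hS' u hu
        · rw [hwN]
          intro y hy
          simp only [mem_insert, mem_singleton] at hy ⊢
          rcases hy with rfl | rfl
          · exact Or.inr (Or.inr (Or.inr (Or.inr hxS)))
          · exact Or.inl rfl
        · have := card_ins (y := c) (card_ins (y := w) (le_refl X.card))
          omega
      · have hx'1 : S1 G x' := by
          by_contra h1
          exact hx'S (hz x' c (hsymm _ _ hcx') h1 hx'2)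
        have hmem : x' ∈ (univ.filter fun x => S1 G x ∧ ∃ y, E x y) \ S := by
          rw [mem_sdiff, mem_filter]
          exact ⟨⟨mem_univ _, hx'1, c, hsymm _ _ hcx'⟩, hx'S⟩
        have hm1 : 1 ≤ ((univ.filter fun x => S1 G x ∧ ∃ y, E x y) \ S).card :=
          card_pos.2 ⟨x', hmem⟩
        -- the second step
        refine Win.step' (X' := insert x' (insert c (insert w X)))
          (S' := insert x' (insert f (insert c (insert w (insert r S))))) f
          (subset_insert _ _) ?_ ?_ ?_
        · intro y hy
          simp only [mem_insert, mem_union] at hy ⊢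
          tauto
        · intro u hu
          rcases mem_insert.1 hu with rfl | hu
          · rw [hcN]
            intro y hy
            simp only [mem_insert, mem_singleton] at hy ⊢
            rcases hy with rfl | rfl
            · exact Or.inr (Or.inr (Or.inr (Or.inr (Or.inr hxS))))
            · exact Or.inl rfl
          rcases mem_insert.1 hu with rfl | hu
          · rw [hwN]
            intro y hy
            simp only [mem_insert, mem_singleton] at hy ⊢
            rcases hy with rfl | rfl
            · exact Or.inr (Or.inr (Or.inr (Or.inr (Or.inr hxS))))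
            · exact Or.inr (Or.inl rfl)
          · exact (hS' u hu).trans ((subset_insert _ _).trans (subset_insert _ _))
        · refine ih (m - 1) (by omega) _ _ x' c (mem_insert_self _ _) ?_ hx'1 (hsymm _ _ hcx')
            hc2 ?_ ?_ ?_ ?_
          · intro u hu hux'
            rcases mem_insert.1 hu with rfl | hu
            · exact absurd rfl hux'
            rcases mem_insert.1 hu with rfl | hu
            · rw [hcN]
              intro y hy
              simp only [mem_insert, mem_singleton] at hy ⊢
              rcases hy with rfl | rfl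
              · exact Or.inr (Or.inr (Or.inr (Or.inr (Or.inr hxS))))
              · exact Or.inl rfl
            rcases mem_insert.1 hu with rfl | hu
            · rw [hwN]
              intro y hy
              simp only [mem_insert, mem_singleton] at hy ⊢
              rcases hy with rfl | rfl
              · exact Or.inr (Or.inr (Or.inr (Or.inr (Or.inr hxS))))
              · exact Or.inr (Or.inl rfl)
            · exact (hS' u hu).trans ((subset_insert _ _).trans (subset_insert _ _))
          · simp
          · intro u y h1 h2 h3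
            simp only [mem_insert]
            exact Or.inr (Or.inr (Or.inr (Or.inr (Or.inr (hz u y h1 h2 h3)))))
          · have h1 : ((univ.filter fun x => S1 G x ∧ ∃ y, E x y) \
                insert x' (insert f (insert c (insert w (insert r S))))).card <
                ((univ.filter fun x => S1 G x ∧ ∃ y, E x y) \ S).card := by
              apply card_lt_card
              rw [ssubset_iff_of_subset]
              · exact ⟨x', hmem, fun h => (mem_sdiff.1 h).2 (mem_insert_self _ _)⟩
              · intro y hy
                rw [mem_sdiff] at hy ⊢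
                refine ⟨hy.1, fun h => hy.2 ?_⟩
                simp only [mem_insert]
                tauto
            omega
          · have := card_ins (y := x') (card_ins (y := c) (card_ins (y := w) (le_refl X.card)))
            omega

end

end Pool.Agent.Helper74.FFT
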