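import Pool.Agent.Helper74.FFT.Start

/-!
# MP_cd9ac2_co: the types of vertices and the bad starting vertices
-/

namespace Pool.Agent.Helper74.FFT

open Finset
open scoped Classical

section
variable {V : Type} [Fintype V] (G : SimpleGraph V) (L : ℕ)

/-- Good starting vertices. -/
def Gd (v : V) : Prop := Win G L {v} {v}

/-- Type `C`. -/
def tyC (x : V) : Prop := dg G x = 3 ∧ tw G x = 0
/-- Type `B`. -/
def tyB (x : V) : Prop := dg G x = 3 ∧ tw G x = 1
/-- Vertices of degree three with two neighbours of degree two. -/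
def tyD (x : V) : Prop := dg G x = 3 ∧ 2 ≤ tw G x
/-- Outer vertices. -/
def tyO (x : V) : Prop := 4 ≤ dg G x ∧ ¬ S1 G x

variable {G}

theorem types {x : V} (h : 3 ≤ dg G x) : S1 G x ∨ tyC G x ∨ tyD G x ∨ tyO G x := by
  unfold S1 tyC tyD tyO S1
  omega

theorem tw_pos {a v : V} (ha : v ∈ nb G a) (hv : dg G v = 2) : 1 ≤ tw G a :=
  card_pos.2 ⟨v, mem_filter.2 ⟨ha, hv⟩⟩

theorem tw_le (a : V) : tw G a ≤ dg G a := card_le_card (filter_subset _ _)

variable {L}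

theorem f0 (hL : 5 ≤ L) {v : V} (hv : dg G v ≤ 1) : Gd G L v := good0 (by omega) hv

theorem f1 (hL : 5 ≤ L) {v a : V} (hv : dg G v = 2) (hG : ¬ Gd G L v) (ha : a ∈ nb G v) :
    3 ≤ dg G a := by
  by_contra hcon
  apply hG
  obtain ⟨z, hz, hvN⟩ := nb_two G hv ha
  have hva : v ∈ nb G a := nb_symm G ha
  have h1 : 1 ≤ dg G a := card_pos.2 ⟨v, hva⟩
  rcases Nat.lt_or_ge (dg G a) 2 with h2 | h2
  · have h3 : dg G a = 1 := by omega
    obtain ⟨c, hc⟩ := card_eq_one.1 h3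
    refine good1 (z := z) (a := a) (c := c) (by omega) ?_ ?_
    · rw [hvN, pair_comm]
    · rw [hc, singleton_subset_iff]
      simp
  · have h3 : dg G a = 2 := by omega
    obtain ⟨c, _, hc⟩ := nb_two G h3 hva
    refine good1 (z := z) (a := a) (c := c) (by omega) ?_ ?_
    · rw [hvN, pair_comm]
    · rw [hc]

theorem f2 (hL : 5 ≤ L) {v a : V} (hv : dg G v = 2) (hG : ¬ Gd G L v) (ha : a ∈ nb G v) :
    ¬ tyD G a := by
  rintro ⟨h3, ht⟩
  apply hG
  obtain ⟨z, hz, hvN⟩ := nb_two G hv ha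
  have hva : v ∈ nb G a := nb_symm G ha
  obtain ⟨u, hu, huv⟩ : ∃ u ∈ (nb G a).filter (fun w => dg G w = 2), u ≠ v :=
    exists_mem_ne (by exact ht) v
  rw [mem_filter] at hu
  obtain ⟨r, _, _, haN⟩ := nb_three G h3 hva hu.1 huv.symm
  obtain ⟨w, _, huN⟩ := nb_two G hu.2 (nb_symm G hu.1)
  refine good2 (z := z) (b := a) (u := u) (r := r) (w := w) (by omega) ?_ ?_ ?_
  · rw [hvN, pair_comm]
  · rw [haN]
  · rw [huN]

theorem exists_two {b : V} (h : 1 ≤ tw G b) : ∃ u ∈ nb G b, dg G u = 2 := by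
  obtain ⟨u, hu⟩ := card_pos.1 h
  rw [mem_filter] at hu
  exact ⟨u, hu.1, hu.2⟩

theorem f3 (hL : 5 ≤ L) {v a b' : V} (hv : dg G v = 2) (hG : ¬ Gd G L v) (ha : a ∈ nb G v)
    (hB : tyB G a) (hb : b' ∈ nb G a) : ¬ tyB G b' := by
  rintro ⟨hb3, hbt⟩
  apply hG
  obtain ⟨z, hz, hvN⟩ := nb_two G hv ha
  have hva : v ∈ nb G a := nb_symm G ha
  have hne : v ≠ b' := by
    rintro rfl
    omega
  obtain ⟨r, _, _, haN⟩ := nb_three G hB.1 hva hb hne
  obtain ⟨u, hu, hu2⟩ := exists_two (G := G) (b := b') (by omega)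
  have hua : a ≠ u := by
    rintro rfl
    have := hB.1
    omega
  obtain ⟨s, _, _, hbN⟩ := nb_three G hb3 (nb_symm G hb) hu hua
  obtain ⟨w, _, huN⟩ := nb_two G hu2 (nb_symm G hu)
  refine good3 (z := z) (b := a) (r := r) (b' := b') (u := u) (s := s) (w := w) (by omega)
    ?_ ?_ ?_ ?_
  · rw [hvN, pair_comm]
  · rw [haN]
  · rw [hbN]
  · rw [huN]

theorem f4 (hL : 5 ≤ L) {v a c b' : V} (hv : dg G v = 2) (hG : ¬ Gd G L v) (ha : a ∈ nb G v)
    (hB : tyB G a) (hc : c ∈ nb G a) (hC : tyC G c) (hb : b' ∈ nb G c) (hne : b' ≠ a) :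
    ¬ tyB G b' := by
  rintro ⟨hb3, hbt⟩
  apply hG
  obtain ⟨z, hz, hvN⟩ := nb_two G hv ha
  have hva : v ∈ nb G a := nb_symm G ha
  have hvc : v ≠ c := by
    rintro rfl
    have := hC.1
    omega
  obtain ⟨r, _, _, haN⟩ := nb_three G hB.1 hva hc hvc
  obtain ⟨s, _, _, hcN⟩ := nb_three G hC.1 (nb_symm G hc) hb hne.symm
  obtain ⟨u, hu, hu2⟩ := exists_two (G := G) (b := b') (by omega)
  have huc : c ≠ u := by
    rintro rfl
    have := hC.1
    omega
  obtain ⟨q, _, _, hbN⟩ := nb_three G hb3 (nb_symm G hb) hu huc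
  obtain ⟨w, _, huN⟩ := nb_two G hu2 (nb_symm G hu)
  refine good4 (z := z) (b := a) (r := r) (c := c) (s := s) (b' := b') (u := u) (q := q) (w := w)
    (by omega) ?_ ?_ ?_ ?_ ?_
  · rw [hvN, pair_comm]
  · rw [haN]
  · rw [hcN]
  · rw [hbN]
  · rw [huN]

/-- The number of neighbours in `S1`. -/
noncomputable def jS (G : SimpleGraph V) (y : V) : ℕ := ((nb G y).filter fun x => S1 G x).card

theorem S1_dg {x : V} (h : S1 G x) : 3 ≤ dg G x := by
  unfold S1 at h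
  omega

theorem S1_tw {x : V} (h : S1 G x) : 1 ≤ tw G x := by
  unfold S1 at h
  omega

/-- The neighbour types of a bad vertex of degree two. -/
theorem nbr_type (hL : 5 ≤ L) {y x : V} (hy : dg G y = 2) (hG : ¬ Gd G L y) (hx : x ∈ nb G y) :
    S1 G x ∨ tyO G x := by
  have h3 := f1 hL hy hG hx
  rcases types h3 with h | h | h | h
  · exact Or.inl h
  · exfalso
    have := tw_pos (nb_symm G hx) hy
    unfold tyC at h
    omega
  · exact absurd h (f2 hL hy hG hx)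
  · exact Or.inr h

theorem start_win {w x0 z : V} (E : V → V → Prop) (hadj : ∀ x y, E x y → G.Adj x y)
    (hsymm : ∀ x y, E x y → E y x) (hdeg : ∀ x y, E x y → ∃ z, z ≠ y ∧ E x z)
    (h22 : ∀ x y, E x y → dg G x = 2 → dg G y ≠ 2)
    (h11 : ∀ x y, E x y → S1 G x → ¬ S1 G y) (hw : dg G w = 2) (hE : E w x0) (hx0 : S1 G x0)
    (hwN : nb G w = {x0, z}) (hz : ∀ u y, E u y → ¬ S1 G u → dg G u ≠ 2 → u = z)
    (hL : 3 * (univ.filter fun x => S1 G x ∧ ∃ y, E x y).card + 4 ≤ L) : Gd G L w := by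
  refine start (z := z) (b := x0) ?_ fun hX => ?_
  · rw [hwN, pair_comm]
  · refine head_win E hadj hsymm hdeg h22 h11
      (univ.filter fun x => S1 G x ∧ ∃ y, E x y).card _ _ x0 w ?_ ?_ hx0 (hsymm _ _ hE) hw ?_ ?_
      ?_ ?_
    · simp
    · exact hX
    · simp
    · intro u y h1 h2 h3
      rw [hz u y h1 h2 h3]
      simp
    · exact card_le_card sdiff_subset
    · have := card_ins (y := x0) (by simp : ({w} : Finset V).card ≤ 1)
      omega

end

end Pool.Agent.Helper74.FFT
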