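import Pool.Agent.Helper34.FF.Goals1

/-!
# MP_cd9ac2_co: strategies of one firefighter, described by over-approximations of the fire
-/

namespace Pool.Agent.Helper74.FFT

open Finset
open Pool.Agent.Helper34.FF (prot burn Legal saved sn rho)
open scoped Classical

section
variable {V : Type} [Fintype V] (G : SimpleGraph V)

/-- The neighbours of a vertex. -/
noncomputable def nb (v : V) : Finset V := univ.filter fun w => G.Adj v w

theorem mem_nb {v w : V} : w ∈ nb G v ↔ G.Adj v w := by simp [nb]

/-- `Win L X S`: if all burning vertices are in `X`, and all vertices of `S` are in `X` or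
protected, then one firefighter can restrict the fire to at most `L` vertices. -/
inductive Win (L : ℕ) : Finset V → Finset V → Prop
  | done (X S : Finset V) : (∀ x ∈ X, nb G x ⊆ S) → X.card ≤ L → Win L X S
  | step (X S X' : Finset V) (p : V) : X ⊆ X' → (∀ x ∈ X, nb G x ⊆ X' ∪ insert p S) →
      Win L X' (X' ∪ insert p S) → Win L X S

theorem prot_succ (σ : ℕ → Finset V) (t : ℕ) : prot σ (t + 1) = prot σ t ∪ σ (t + 1) := by
  ext y
  simp only [prot, mem_biUnion, mem_Icc, mem_union]
  constructor
  · rintro ⟨s, ⟨h1, h2⟩, hy⟩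
    rcases Nat.lt_or_ge t s with h | h
    · right
      rwa [show t + 1 = s by omega]
    · exact Or.inl ⟨s, ⟨h1, h⟩, hy⟩
  · rintro (⟨s, ⟨h1, h2⟩, hy⟩ | hy)
    · exact ⟨s, ⟨h1, by omega⟩, hy⟩
    · exact ⟨t + 1, ⟨by omega, le_rfl⟩, hy⟩

theorem prot_mono (σ : ℕ → Finset V) {s t : ℕ} (h : s ≤ t) : prot σ s ⊆ prot σ t := by
  induction h with
  | refl => exact Subset.refl _
  | step _ ih =>
    rw [prot_succ]
    exact ih.trans subset_union_left

theorem prot_congr {σ τ : ℕ → Finset V} {t : ℕ} (h : ∀ s, 1 ≤ s → s ≤ t → σ s = τ s) :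
    prot σ t = prot τ t := by
  unfold prot
  ext y
  simp only [mem_biUnion, mem_Icc]
  constructor
  · rintro ⟨s, ⟨h1, h2⟩, hy⟩
    exact ⟨s, ⟨h1, h2⟩, by rwa [← h s h1 h2]⟩
  · rintro ⟨s, ⟨h1, h2⟩, hy⟩
    exact ⟨s, ⟨h1, h2⟩, by rwa [h s h1 h2]⟩

theorem burn_congr {v : V} {σ τ : ℕ → Finset V} {t : ℕ}
    (h : ∀ s, 1 ≤ s → s ≤ t → σ s = τ s) : burn G v σ t = burn G v τ t := by
  induction t with
  | zero => rfl
  | succ t ih =>
    unfold burn
    rw [ih (fun s h1 h2 => h s h1 (by omega)), prot_congr h]

theorem win_ext {L : ℕ} {v : V} {X S : Finset V} (hw : Win G L X S) :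
    ∀ (t : ℕ) (σ : ℕ → Finset V),
      (∀ s, 1 ≤ s → s ≤ t → (σ s).card ≤ 1 ∧ Disjoint (σ s) (burn G v σ (s - 1))) →
      burn G v σ t ⊆ X → S ⊆ X ∪ prot σ t →
      ∃ τ, Legal G 1 v τ ∧ Fintype.card V ≤ (saved G v τ).card + L := by
  induction hw with
  | done X S hN hL =>
    intro t σ hleg hb hS
    let τ : ℕ → Finset V := fun s => if s ≤ t then σ s else ∅
    have hτ : ∀ s, s ≤ t → τ s = σ s := fun s hs => if_pos hs
    have hτ' : ∀ s, t < s → τ s = ∅ := fun s hs => if_neg (by omega)
    have hbs : ∀ s, s ≤ t → burn G v τ s = burn G v σ s := fun s hs =>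
      burn_congr G (fun r _ hr => hτ r (by omega))
    have hps : prot τ t = prot σ t := prot_congr (fun r _ hr => hτ r hr)
    have hb2 : ∀ s, burn G v τ (t + s) ⊆ X := by
      intro s
      induction s with
      | zero => rw [Nat.add_zero, hbs t le_rfl]; exact hb
      | succ s ih =>
        rw [← Nat.add_assoc]
        unfold burn
        refine union_subset ih ?_
        intro y hy
        rw [mem_filter] at hy
        obtain ⟨_, hyp, x, hx, hxy⟩ := hy
        have h1 : y ∈ S := hN x (ih hx) ((mem_nb G).2 hxy)
        rcases mem_union.1 (hS h1) with h2 | h2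
        · exact h2
        · exact absurd (prot_mono τ (by omega : t ≤ t + s + 1) (by rw [hps]; exact h2)) hyp
    have hmono : ∀ s r, burn G v τ s ⊆ burn G v τ (s + r) := by
      intro s r
      induction r with
      | zero => exact Subset.refl _
      | succ r ih => exact ih.trans (by rw [← Nat.add_assoc]; exact subset_union_left)
    have hb3 : ∀ s, burn G v τ s ⊆ X := fun s =>
      (hmono s t).trans (by rw [Nat.add_comm]; exact hb2 s)
    refine ⟨τ, ?_, ?_⟩
    · intro s hs
      by_cases h : s ≤ t
      · rw [hτ s h, hbs (s - 1) (by omega)]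
        exact hleg s hs h
      · rw [hτ' s (by omega)]
        exact ⟨by simp, disjoint_empty_left _⟩
    · have h1 : univ \ X ⊆ saved G v τ := by
        intro y hy
        rw [mem_sdiff] at hy
        unfold saved
        rw [mem_filter]
        exact ⟨mem_univ _, fun s hs => hy.2 (hb3 s hs)⟩
      have h2 := card_le_card h1
      have h3 : (univ \ X).card = Fintype.card V - X.card := by
        rw [card_sdiff_of_subset (subset_univ X), card_univ]
      omega
  | step X S X' p hX hN _ ih =>
    intro t σ hleg hb hS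
    let τ : ℕ → Finset V := fun s => if s = t + 1 then {p} \ burn G v σ t else σ s
    have hτ : ∀ s, s ≤ t → τ s = σ s := fun s hs => if_neg (by omega)
    have hτ' : τ (t + 1) = {p} \ burn G v σ t := if_pos rfl
    have hbs : ∀ s, s ≤ t → burn G v τ s = burn G v σ s := fun s hs =>
      burn_congr G (fun r _ hr => hτ r (by omega))
    have hps : prot τ t = prot σ t := prot_congr (fun r _ hr => hτ r hr)
    apply ih (t + 1) τ
    · intro s h1 h2
      rcases Nat.lt_or_ge t s with h | h
      · obtain rfl : s = t + 1 := by omega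
        rw [hτ', Nat.add_sub_cancel, hbs t le_rfl]
        refine ⟨(card_le_card sdiff_subset).trans (by simp), ?_⟩
        exact sdiff_disjoint
      · rw [hτ s h, hbs (s - 1) (by omega)]
        exact hleg s h1 h
    · unfold burn
      rw [hbs t le_rfl]
      refine union_subset (hb.trans hX) ?_
      intro y hy
      rw [mem_filter] at hy
      obtain ⟨_, hyp, x, hx, hxy⟩ := hy
      have h1 := hN x (hb hx) ((mem_nb G).2 hxy)
      rw [prot_succ, hτ', hps, mem_union, not_or, mem_sdiff, mem_singleton] at hyp
      rcases mem_union.1 h1 with h2 | h2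
      · exact h2
      · rcases mem_insert.1 h2 with h3 | h3
        · by_contra hcon
          exact hyp.2 ⟨h3, fun h4 => hcon (hX (hb h4))⟩
        · rcases mem_union.1 (hS h3) with h4 | h4
          · exact hX h4
          · exact absurd h4 hyp.1
    · rw [prot_succ, hτ', hps]
      intro y hy
      rcases mem_union.1 hy with h2 | h2
      · exact mem_union_left _ h2
      · rcases mem_insert.1 h2 with h3 | h3
        · subst h3
          by_cases h4 : y ∈ burn G v σ t
          · exact mem_union_left _ (hX (hb h4))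
          · exact mem_union_right _ (mem_union_right _ (mem_sdiff.2 ⟨mem_singleton_self _, h4⟩))
        · rcases mem_union.1 (hS h3) with h4 | h4
          · exact mem_union_left _ (hX h4)
          · exact mem_union_right _ (mem_union_left _ h4)

theorem sn_of_win {L : ℕ} {v : V} (h : Win G L {v} {v}) : Fintype.card V ≤ sn 1 G v + L := by
  obtain ⟨τ, h1, h2⟩ := win_ext G (v := v) h 0 (fun _ => ∅) (fun s h1 h2 => by omega)
    (Subset.refl _) subset_union_left
  refine h2.trans (Nat.add_le_add_right ?_ L)
  unfold sn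
  apply le_csSup
  · refine ⟨Fintype.card V, ?_⟩
    rintro m ⟨σ, _, rfl⟩
    exact card_le_univ _
  · exact ⟨τ, h1, rfl⟩

theorem win_mono {L L' : ℕ} (hL : L ≤ L') {X S : Finset V} (h : Win G L X S) :
    ∀ S', S ⊆ S' → Win G L' X S' := by
  induction h with
  | done X S hN hc => exact fun S' hS => Win.done X S' (fun x hx => (hN x hx).trans hS) (hc.trans hL)
  | step X S X' p hX hN _ ih =>
    intro S' hS
    refine Win.step X S' X' p hX (fun x hx => (hN x hx).trans ?_) (ih _ ?_)
    · exact union_subset_union_right (insert_subset_insert _ hS)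
    · exact union_subset_union_right (insert_subset_insert _ hS)

/-- One firefighter saves at least one vertex. -/
theorem one_le_sn (v : V) (hV : 2 ≤ Fintype.card V) : 1 ≤ sn 1 G v := by
  obtain ⟨y, hy⟩ := Fintype.exists_ne_of_one_lt_card (by omega : 1 < Fintype.card V) v
  have h : Win G (Fintype.card V - 1) {v} {v} := by
    refine Win.step _ _ (univ.erase y) y ?_ ?_ (Win.done _ _ ?_ ?_)
    · rw [singleton_subset_iff]
      exact mem_erase.2 ⟨hy.symm, mem_univ _⟩
    · intro x _ z _
      by_cases h : z = y
      · exact mem_union_right _ (mem_insert.2 (Or.inl h))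
      · exact mem_union_left _ (mem_erase.2 ⟨h, mem_univ _⟩)
    · intro x _ z _
      by_cases h : z = y
      · exact mem_union_right _ (mem_insert.2 (Or.inl h))
      · exact mem_union_left _ (mem_erase.2 ⟨h, mem_univ _⟩)
    · rw [card_erase_of_mem (mem_univ _), card_univ]
  have := sn_of_win G h
  omega

end

end Pool.Agent.Helper74.FFT
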